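import Pool.Agent.R433.NF.Main

/-! Bounded functions on the primes with known second moments: the case of equality. -/

set_option autoImplicit false

namespace Pool.Agent.R433.NF

open Complex Filter Topology ComplexConjugate NumberField IsDedekindDomain Asymptotics
  Pool.Agent.W401.Cheb Pool.Agent.W540.BE Pool.Agent.W353.L1 Pool.Agent.W353.NF
open Pool.Agent.H341R2 (lam lam_tendsto)
open Pool.Agent.Y722.EP (log_ratio rE abs_rE)
open Pool.Agent.R433.AT (MeanOne EP_cauchy zz_mul zz_conj)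
open scoped TensorProduct

section
variable {K : Type} [Field K] [NumberField K]

theorem zz_zero (v : HeightOneSpectrum (𝓞 K)) : zz 0 v = 1 := by
  unfold zz
  simp

theorem zz_pow (τ : ℝ) (v : HeightOneSpectrum (𝓞 K)) (l : ℕ) : (zz τ v) ^ l = zz (l * τ) v := by
  induction l with
  | zero => rw [pow_zero, Nat.cast_zero, zero_mul, zz_zero]
  | succ l ih =>
    rw [pow_succ, ih, zz_mul]
    congr 1
    push_cast
    ring

/-- the kernel of Fejer -/
theorem kern_eq (J : ℕ) (τ : ℝ) (v : HeightOneSpectrum (𝓞 K)) :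
    ∑ l ∈ Finset.range J, ∑ l' ∈ Finset.range J, cz (((l : ℝ) - l') * τ) v =
      ‖∑ l ∈ Finset.range J, (zz τ v) ^ l‖ ^ 2 := by
  have h1 : ((‖∑ l ∈ Finset.range J, (zz τ v) ^ l‖ ^ 2 : ℝ) : ℂ) =
      ∑ l ∈ Finset.range J, ∑ l' ∈ Finset.range J, zz (((l : ℝ) - l') * τ) v := by
    have h2 := Complex.mul_conj (∑ l ∈ Finset.range J, (zz τ v) ^ l)
    rw [Complex.normSq_eq_norm_sq] at h2
    rw [← h2, map_sum, Finset.sum_mul_sum]
    refine Finset.sum_congr rfl fun l _ => Finset.sum_congr rfl fun l' _ => ?_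
    rw [map_pow, zz_conj, zz_pow, zz_pow, zz_mul]
    congr 1
    ring
  have h3 := congrArg Complex.re h1
  rw [Complex.ofReal_re] at h3
  rw [h3, Complex.re_sum]
  refine Finset.sum_congr rfl fun l _ => ?_
  rw [Complex.re_sum]
  rfl

theorem kern_le (J : ℕ) (τ : ℝ) (v : HeightOneSpectrum (𝓞 K)) :
    ‖∑ l ∈ Finset.range J, (zz τ v) ^ l‖ ^ 2 ≤ (J : ℝ) ^ 2 := by
  have h : ‖∑ l ∈ Finset.range J, (zz τ v) ^ l‖ ≤ J := by
    refine (norm_sum_le _ _).trans ?_
    have : ∀ l ∈ Finset.range J, ‖(zz τ v) ^ l‖ ≤ 1 := fun l _ => by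
      rw [norm_pow, norm_zz, one_pow]
    refine (Finset.sum_le_sum this).trans ?_
    simp
  exact pow_le_pow_left₀ (norm_nonneg _) h 2

theorem kern_far (J : ℕ) (τ : ℝ) (v : HeightOneSpectrum (𝓞 K)) {x : ℝ} (hx : x < 1)
    (h : cz τ v ≤ x) : ‖∑ l ∈ Finset.range J, (zz τ v) ^ l‖ ^ 2 ≤ 2 / (1 - x) := by
  set z := zz τ v with hz
  have hn : ‖z‖ = 1 := norm_zz τ v
  have h1 : (∑ l ∈ Finset.range J, z ^ l) * (z - 1) = z ^ J - 1 := geom_sum_mul z J
  have h2 : ‖z - 1‖ ^ 2 = 2 - 2 * z.re := by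
    have h3 : ‖z‖ ^ 2 = z.re ^ 2 + z.im ^ 2 := by
      rw [← Complex.normSq_eq_norm_sq, Complex.normSq_apply]
      ring
    rw [← Complex.normSq_eq_norm_sq, Complex.normSq_apply]
    rw [hn] at h3
    simp only [Complex.sub_re, Complex.one_re, Complex.sub_im, Complex.one_im]
    nlinarith
  have h3 : ‖z ^ J - 1‖ ≤ 2 := by
    refine (norm_sub_le _ _).trans ?_
    rw [norm_pow, hn, one_pow, norm_one]
    norm_num
  have h4 : ‖∑ l ∈ Finset.range J, z ^ l‖ ^ 2 * ‖z - 1‖ ^ 2 ≤ 4 := by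
    rw [← mul_pow, ← norm_mul, h1]
    calc ‖z ^ J - 1‖ ^ 2 ≤ 2 ^ 2 := pow_le_pow_left₀ (norm_nonneg _) h3 2
      _ = 4 := by norm_num
  have h5 : z.re ≤ x := h
  rw [le_div_iff₀ (by linarith)]
  rw [h2] at h4
  nlinarith [sq_nonneg ‖∑ l ∈ Finset.range J, z ^ l‖]

/-- **The case of equality, at any height.** -/
theorem abs_strict {R : HeightOneSpectrum (𝓞 K) → ℝ} (hR2 : ∀ v, |R v| ≤ 2) {C : ℝ}
    (hR : ∀ᶠ ε : ℝ in 𝓝[>] 0, (EP (nm K) ε fun v => R v ^ 2) ≤ Real.log (1 / ε) + C)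
    (σ : HeightOneSpectrum (𝓞 K) → GK K) (hσ : ∀ v, IsFrob v (σ v)) (τ : ℝ)
    (U : Subgroup (GK K)) [U.Normal] (hU : IsOpen (U : Set (GK K)))
    {w : HeightOneSpectrum (𝓞 K) → ℝ} {Bw : ℝ} (hwb : ∀ v, |w v| ≤ Bw) {D : ℝ}
    (hwU : ∀ v, σ v ∈ U → w v = D * cz τ v) {M A : ℝ}
    (hm : Tendsto (fun ε : ℝ => (EP (nm K) ε fun v => R v * w v) / lam ε) (𝓝[>] 0)
      (𝓝 (-M)))
    (hA : Tendsto (fun ε : ℝ => (EP (nm K) ε fun v => w v * w v) / lam ε)
      (𝓝[>] 0) (𝓝 A)) (hA0 : 0 < A) (hMA : M ^ 2 = A) : D ^ 2 ≤ 4 * A := by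
  classical
  by_contra hD
  push Not at hD
  have hN : NormSys (nm K) := normSys
  have hfin : Finite (GK K ⧸ U) := Subgroup.quotient_finite_of_isOpen _ hU
  set c : ℝ := M / A with hc
  have hcD : 4 < (c * D) ^ 2 := by
    have h1 : (c * D) ^ 2 * A = D ^ 2 := by
      rw [mul_pow, hc, div_pow, hMA]
      field_simp
    by_contra h2
    push Not at h2
    have := mul_le_mul_of_nonneg_right h2 hA0.le
    linarith
  have hcD2 : 2 < |c * D| := by
    have h1 : (2 : ℝ) ^ 2 < |c * D| ^ 2 := by rw [sq_abs]; linarith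
    exact lt_of_pow_lt_pow_left₀ 2 (abs_nonneg _) h1
  -- the threshold
  obtain ⟨x, hx1, hx2⟩ : ∃ x : ℝ, x < 1 ∧ 2 < |c * D| * x := by
    refine ⟨(1 + 2 / |c * D|) / 2, ?_, ?_⟩
    · have : 2 / |c * D| < 1 := by
        rw [div_lt_one (by linarith)]
        exact hcD2
      linarith
    · have h0 : |c * D| ≠ 0 := by linarith
      field_simp
      linarith
  set δ : ℝ := |c * D| * x - 2 with hδ
  have hδ0 : 0 < δ := by linarith
  -- the length of the kernel
  set G : ℝ := (Nat.card (GK K ⧸ U) : ℝ) with hG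
  have hG0 : 0 < G := by
    rw [hG]
    exact_mod_cast Nat.card_pos
  obtain ⟨J, hJ⟩ := exists_nat_gt (2 / (1 - x) * G)
  have hx0 : 0 < 1 - x := by linarith
  have hJ0 : (0 : ℝ) < J := lt_trans (by positivity) hJ
  -- the mean value of the kernel over the kernel of the action
  set g : GK K ⧸ U → ℂ := fun q => if q = 1 then 1 else 0 with hg
  have hgc : ∀ a y, g (y * a * y⁻¹) = g a := by
    intro a y
    rw [hg]
    simp only
    have : y * a * y⁻¹ = 1 ↔ a = 1 := by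
      constructor
      · intro h1
        exact mul_eq_left.1 (mul_inv_eq_one.1 h1)
      · intro h1
        rw [h1]
        group
    simp only [this]
  have hgav : avC U g = (((Nat.card (GK K ⧸ U) : ℝ)⁻¹ : ℝ) : ℂ) := by
    let _ : Fintype (GK K ⧸ U) := Fintype.ofFinite _
    unfold avC
    rw [finsum_eq_sum_of_fintype, hg, Finset.sum_eq_single (1 : GK K ⧸ U)
      (fun q _ hq => if_neg hq) (fun h => absurd (Finset.mem_univ _) h), if_pos rfl, mul_one]
    push_cast
    rfl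
  have hI : ∀ t : ℝ, Tendsto (fun ε : ℝ => (EP (nm K) ε fun v =>
      (if σ v ∈ U then (1 : ℝ) else 0) * cz t v) / lam ε)
      (𝓝[>] 0) (𝓝 (if t = 0 then G⁻¹ else 0)) := by
    intro t
    have hsplit := cheb_edge U hU g hgc _ hgav σ hσ t
    refine hsplit.congr fun ε => ?_
    congr 2
    funext v
    rw [hg]
    simp only
    by_cases h2 : σ v ∈ U
    · rw [if_pos ((QuotientGroup.eq_one_iff _).2 h2), if_pos h2, one_mul, one_mul]
      rfl
    · rw [if_neg (fun h3 => h2 ((QuotientGroup.eq_one_iff _).1 h3)), if_neg h2, zero_mul,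
        zero_mul, Complex.zero_re]
  have hK := tendsto_finsetSum (Finset.range J) fun l _ =>
    tendsto_finsetSum (Finset.range J) fun l' _ => hI (((l : ℝ) - l') * τ)
  set Kv : HeightOneSpectrum (𝓞 K) → ℝ := fun v => (if σ v ∈ U then (1 : ℝ) else 0) *
    ‖∑ l ∈ Finset.range J, (zz τ v) ^ l‖ ^ 2 with hKv
  have hKb : ∀ v, |Kv v| ≤ (J : ℝ) ^ 2 := by
    intro v
    rw [hKv]
    simp only
    rw [abs_mul, abs_of_nonneg (sq_nonneg ‖∑ l ∈ Finset.range J, (zz τ v) ^ l‖)]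
    have h1 := kern_le J τ v
    split_ifs
    · rw [abs_one, one_mul]; exact h1
    · rw [abs_zero, zero_mul]; positivity
  have hKlim : Tendsto (fun ε : ℝ => (EP (nm K) ε Kv) / lam ε) (𝓝[>] 0)
      (𝓝 (∑ l ∈ Finset.range J, ∑ l' ∈ Finset.range J,
        if ((l : ℝ) - l') * τ = 0 then G⁻¹ else 0)) := by
    refine hK.congr' ?_
    filter_upwards [self_mem_nhdsWithin] with ε hε
    have hε' : (0 : ℝ) < ε := hε
    have hb : ∀ (t : ℝ) (v : HeightOneSpectrum (𝓞 K)),
        |(if σ v ∈ U then (1 : ℝ) else 0) * cz t v| ≤ 1 := by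
      intro t v
      rw [abs_mul]
      split_ifs
      · rw [abs_one, one_mul]; exact abs_cz _ _
      · rw [abs_zero, zero_mul]; norm_num
    have e1 : Kv = fun v => ∑ l ∈ Finset.range J, ∑ l' ∈ Finset.range J,
        (if σ v ∈ U then (1 : ℝ) else 0) * cz (((l : ℝ) - l') * τ) v := by
      funext v
      rw [hKv]
      simp only
      rw [← kern_eq, Finset.mul_sum]
      exact Finset.sum_congr rfl fun l _ => by rw [Finset.mul_sum]
    rw [e1, EP_sum hN hε' (Finset.range J) (fun l v => ∑ l' ∈ Finset.range J,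
        (if σ v ∈ U then (1 : ℝ) else 0) * cz (((l : ℝ) - l') * τ) v)
      (fun _ => ∑ _l' ∈ Finset.range J, (1 : ℝ))
      (fun l _ v => (Finset.abs_sum_le_sum_abs _ _).trans
        (Finset.sum_le_sum fun l' _ => hb _ v)), Finset.sum_div]
    refine Finset.sum_congr rfl fun l _ => ?_
    rw [EP_sum hN hε' (Finset.range J) (fun l' v =>
        (if σ v ∈ U then (1 : ℝ) else 0) * cz (((l : ℝ) - l') * τ) v) (fun _ => 1)
      (fun l' _ v => hb _ v), Finset.sum_div]
  have hKge : (J : ℝ) * G⁻¹ ≤ ∑ l ∈ Finset.range J, ∑ l' ∈ Finset.range J,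
      if ((l : ℝ) - l') * τ = 0 then G⁻¹ else 0 := by
    have h1 : ∀ l ∈ Finset.range J, G⁻¹ ≤ ∑ l' ∈ Finset.range J,
        if ((l : ℝ) - l') * τ = 0 then G⁻¹ else 0 := by
      intro l hl
      have h2 := Finset.single_le_sum (f := fun l' : ℕ =>
        if ((l : ℝ) - l') * τ = 0 then G⁻¹ else 0) (fun l' _ => by
          split_ifs
          · exact (inv_pos.2 hG0).le
          · exact le_rfl) hl
      simp only [sub_self, zero_mul, if_true] at h2
      exact h2
    have h3 := Finset.sum_le_sum h1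
    rw [Finset.sum_const, Finset.card_range, nsmul_eq_mul] at h3
    exact h3
  -- the squares
  have hL : Tendsto (fun ε : ℝ => ((J : ℝ) ^ 2 / δ ^ 2) * (Real.log (1 / ε) / lam ε +
      |C| / lam ε + 2 * c * ((EP (nm K) ε fun v => R v * w v) / lam ε) +
      c ^ 2 * ((EP (nm K) ε fun v => w v * w v) / lam ε)) +
      2 / (1 - x) * ((EP (nm K) ε fun _ => 1) / lam ε)) (𝓝[>] 0)
      (𝓝 (((J : ℝ) ^ 2 / δ ^ 2) * (1 + 0 + 2 * c * (-M) + c ^ 2 * A) + 2 / (1 - x) * 1)) :=
    ((((log_ratio.add (tendsto_const_nhds.div_atTop lam_tendsto)).add (hm.const_mul _)).add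
      (hA.const_mul _)).const_mul _).add ((EP_one K).const_mul _)
  have e0 : (1 : ℝ) + 0 + 2 * c * (-M) + c ^ 2 * A = 0 := by
    have e1 : (1 : ℝ) + 0 + 2 * c * (-M) + c ^ 2 * A = 1 - M ^ 2 / A := by
      rw [hc]
      field_simp
      ring
    rw [e1, hMA, div_self hA0.ne', sub_self]
  rw [e0, mul_zero, zero_add, mul_one] at hL
  have hBw0 : 0 ≤ Bw := by
    have h1 := EP_one K
    by_contra h2
    push Not at h2
    have h3 : ∀ v : HeightOneSpectrum (𝓞 K), False := fun v => by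
      have := (abs_nonneg _).trans (hwb v)
      linarith
    have h4 : IsEmpty (HeightOneSpectrum (𝓞 K)) := ⟨h3⟩
    have h5 : ∀ ε : ℝ, (EP (nm K) ε fun _ => 1) / lam ε = 0 := fun ε => by
      unfold EP
      rw [tsum_empty, zero_div]
    simp only [h5] at h1
    exact zero_ne_one (tendsto_nhds_unique tendsto_const_nhds h1)
  have hle : (∑ l ∈ Finset.range J, ∑ l' ∈ Finset.range J,
      if ((l : ℝ) - l') * τ = 0 then G⁻¹ else 0) ≤ 2 / (1 - x) := by
    refine le_of_tendsto_of_tendsto hKlim hL ?_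
    filter_upwards [hR, lam_tendsto.eventually_gt_atTop 0, self_mem_nhdsWithin] with ε h4 h2 h3
    have hε : (0 : ℝ) < ε := h3
    have hpt : ∀ v, Kv v ≤ ((J : ℝ) ^ 2 / δ ^ 2) * (R v ^ 2 + ((2 * c) * (R v * w v) +
        c ^ 2 * (w v * w v))) + 2 / (1 - x) * 1 := by
      intro v
      have e3 : R v ^ 2 + ((2 * c) * (R v * w v) + c ^ 2 * (w v * w v)) =
        (R v + c * w v) ^ 2 := by ring
      rw [e3]
      have hx3 : 0 ≤ 2 / (1 - x) * 1 := by positivity
      by_cases h5 : σ v ∈ U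
      · have hK1 : Kv v = ‖∑ l ∈ Finset.range J, (zz τ v) ^ l‖ ^ 2 := by
          rw [hKv]
          simp only
          rw [if_pos h5, one_mul]
        rw [hK1]
        by_cases h6 : cz τ v ≤ x
        · have h7 := kern_far J τ v hx1 h6
          have h8 : 0 ≤ ((J : ℝ) ^ 2 / δ ^ 2) * (R v + c * w v) ^ 2 := by positivity
          linarith
        · push Not at h6
          have hwv : w v = D * cz τ v := hwU v h5
          have hx3' : 0 ≤ x := by
            by_contra h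
            push Not at h
            have := mul_nonpos_of_nonneg_of_nonpos (abs_nonneg (c * D)) h.le
            linarith
          have h7 : |c * D| * x ≤ |c * w v| := by
            rw [hwv, ← mul_assoc, abs_mul (c * D)]
            exact mul_le_mul_of_nonneg_left (h6.le.trans (le_abs_self _)) (abs_nonneg _)
          have h8 : |c * w v| ≤ |R v + c * w v| + |R v| := by
            have : c * w v = (R v + c * w v) - R v := by ring
            calc |c * w v| = |(R v + c * w v) - R v| := by rw [← this]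
              _ ≤ _ := abs_sub _ _
          have h9 : δ ≤ |R v + c * w v| := by
            have h12 := hR2 v
            rw [hδ]
            linarith
          have h10 : δ ^ 2 ≤ (R v + c * w v) ^ 2 := by
            rw [← sq_abs (R v + c * w v)]
            exact pow_le_pow_left₀ hδ0.le h9 2
          have h11 : (J : ℝ) ^ 2 ≤ ((J : ℝ) ^ 2 / δ ^ 2) * (R v + c * w v) ^ 2 := by
            rw [div_mul_eq_mul_div, le_div_iff₀ (by positivity)]
            exact mul_le_mul_of_nonneg_left h10 (by positivity)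
          have h12 := kern_le J τ v
          linarith
      · have hK1 : Kv v = 0 := by
          rw [hKv]
          simp only
          rw [if_neg h5, zero_mul]
        rw [hK1]
        have h8 : 0 ≤ ((J : ℝ) ^ 2 / δ ^ 2) * (R v + c * w v) ^ 2 := by positivity
        linarith
    have b1 : ∀ v, |R v ^ 2| ≤ 4 := fun v => by
      rw [abs_pow]
      calc |R v| ^ 2 ≤ 2 ^ 2 := pow_le_pow_left₀ (abs_nonneg _) (hR2 v) 2
        _ = 4 := by norm_num
    have b2 : ∀ v, |(2 * c) * (R v * w v)| ≤ |2 * c| * (2 * Bw) := fun v => by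
      rw [abs_mul, abs_mul (R v)]
      exact mul_le_mul_of_nonneg_left (mul_le_mul (hR2 v) (hwb v) (abs_nonneg _) (by norm_num))
        (abs_nonneg _)
    have b3 : ∀ v, |c ^ 2 * (w v * w v)| ≤ c ^ 2 * (Bw * Bw) := fun v => by
      rw [abs_mul, abs_mul (w v), abs_of_nonneg (sq_nonneg c)]
      exact mul_le_mul_of_nonneg_left (mul_le_mul (hwb v) (hwb v) (abs_nonneg _) hBw0)
        (sq_nonneg _)
    have b4 : ∀ v, |R v ^ 2 + ((2 * c) * (R v * w v) + c ^ 2 * (w v * w v))| ≤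
        4 + (|2 * c| * (2 * Bw) + c ^ 2 * (Bw * Bw)) := fun v =>
      (abs_add_le _ _).trans (add_le_add (b1 v) ((abs_add_le _ _).trans
        (add_le_add (b2 v) (b3 v))))
    have b5 : ∀ v, |((J : ℝ) ^ 2 / δ ^ 2) * (R v ^ 2 + ((2 * c) * (R v * w v) +
        c ^ 2 * (w v * w v)))| ≤ ((J : ℝ) ^ 2 / δ ^ 2) *
          (4 + (|2 * c| * (2 * Bw) + c ^ 2 * (Bw * Bw))) := fun v => by
      rw [abs_mul, abs_of_nonneg (by positivity : 0 ≤ (J : ℝ) ^ 2 / δ ^ 2)]
      exact mul_le_mul_of_nonneg_left (b4 v) (by positivity)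
    have b6 : ∀ _v : HeightOneSpectrum (𝓞 K), |2 / (1 - x) * (1 : ℝ)| ≤ |2 / (1 - x)| := fun v => by
      rw [mul_one]
    have h5 := EP_mono (φ := Kv) (ψ := fun v => ((J : ℝ) ^ 2 / δ ^ 2) *
        (R v ^ 2 + ((2 * c) * (R v * w v) + c ^ 2 * (w v * w v))) + 2 / (1 - x) * 1) hKb
      (fun v => (abs_add_le _ _).trans (add_le_add (b5 v) (b6 v))) hpt hε
    rw [EP_add hN hε b5 b6, EP_const_mul, EP_const_mul,
      EP_add hN hε b1 (fun v => (abs_add_le _ _).trans (add_le_add (b2 v) (b3 v))),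
      EP_add hN hε b2 b3, EP_const_mul, EP_const_mul] at h5
    have h6 : (EP (nm K) ε fun v => R v ^ 2) ≤ Real.log (1 / ε) + |C| := by
      have := le_abs_self C
      linarith
    rw [div_le_iff₀ h2]
    have e4 : (((J : ℝ) ^ 2 / δ ^ 2) * (Real.log (1 / ε) / lam ε +
      |C| / lam ε + 2 * c * ((EP (nm K) ε fun v => R v * w v) / lam ε) +
      c ^ 2 * ((EP (nm K) ε fun v => w v * w v) / lam ε)) +
      2 / (1 - x) * ((EP (nm K) ε fun _ => 1) / lam ε)) * lam ε =
      ((J : ℝ) ^ 2 / δ ^ 2) * (Real.log (1 / ε) + |C| +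
        (2 * c * (EP (nm K) ε fun v => R v * w v) +
        c ^ 2 * (EP (nm K) ε fun v => w v * w v))) +
        2 / (1 - x) * (EP (nm K) ε fun _ => 1) := by
      have e5 : ∀ y : ℝ, y / lam ε * lam ε = y := fun y => div_mul_cancel₀ y h2.ne'
      have e6 : (((J : ℝ) ^ 2 / δ ^ 2) * (Real.log (1 / ε) / lam ε +
        |C| / lam ε + 2 * c * ((EP (nm K) ε fun v => R v * w v) / lam ε) +
        c ^ 2 * ((EP (nm K) ε fun v => w v * w v) / lam ε)) +
        2 / (1 - x) * ((EP (nm K) ε fun _ => 1) / lam ε)) * lam ε =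
        ((J : ℝ) ^ 2 / δ ^ 2) * (Real.log (1 / ε) / lam ε * lam ε + |C| / lam ε * lam ε +
        (2 * c * ((EP (nm K) ε fun v => R v * w v) / lam ε * lam ε) +
        c ^ 2 * ((EP (nm K) ε fun v => w v * w v) / lam ε * lam ε))) +
        2 / (1 - x) * ((EP (nm K) ε fun _ => 1) / lam ε * lam ε) := by ring
      rw [e6, e5, e5, e5, e5, e5]
    rw [e4]
    have h7 : 0 ≤ (J : ℝ) ^ 2 / δ ^ 2 := by positivity
    have h8 : (EP (nm K) ε fun v => R v ^ 2) + (2 * c * (EP (nm K) ε fun v => R v * w v) +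
        c ^ 2 * (EP (nm K) ε fun v => w v * w v)) ≤ Real.log (1 / ε) + |C| +
        (2 * c * (EP (nm K) ε fun v => R v * w v) +
        c ^ 2 * (EP (nm K) ε fun v => w v * w v)) := by linarith
    have h9 := mul_le_mul_of_nonneg_left h8 h7
    linarith
  have h1 := hKge.trans hle
  have h2 : (J : ℝ) ≤ 2 / (1 - x) * G := by
    rw [← div_eq_mul_inv, div_le_iff₀ hG0] at h1
    exact h1
  linarith


/-- the bound -/
theorem abs_bound {R : HeightOneSpectrum (𝓞 K) → ℝ} (hR2 : ∀ v, |R v| ≤ 2) {C : ℝ}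
    (hR : ∀ᶠ ε : ℝ in 𝓝[>] 0, (EP (nm K) ε fun v => R v ^ 2) ≤ Real.log (1 / ε) + C)
    {w : HeightOneSpectrum (𝓞 K) → ℝ} {Bw : ℝ} (hwb : ∀ v, |w v| ≤ Bw) {M A : ℝ}
    (hm : Tendsto (fun ε : ℝ => (EP (nm K) ε fun v => R v * w v) / lam ε) (𝓝[>] 0)
      (𝓝 (-M)))
    (hA : Tendsto (fun ε : ℝ => (EP (nm K) ε fun v => w v * w v) / lam ε)
      (𝓝[>] 0) (𝓝 A)) : M ^ 2 ≤ A := by
  have hN : NormSys (nm K) := normSys
  have h1 := hm.pow 2
  have h2 : Tendsto (fun ε : ℝ => (Real.log (1 / ε) / lam ε + |C| / lam ε) *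
      ((EP (nm K) ε fun v => w v * w v) / lam ε)) (𝓝[>] 0) (𝓝 ((1 + 0) * A)) :=
    (log_ratio.add (tendsto_const_nhds.div_atTop lam_tendsto)).mul hA
  rw [neg_sq] at h1
  rw [add_zero, one_mul] at h2
  refine le_of_tendsto_of_tendsto h1 h2 ?_
  filter_upwards [hR, lam_tendsto.eventually_gt_atTop 0, self_mem_nhdsWithin] with ε h4 h5 h3
  have hε : (0 : ℝ) < ε := h3
  have h6 := EP_cauchy hN hR2 hwb hε
  have e1 : (EP (nm K) ε fun v => w v ^ 2) = EP (nm K) ε fun v => w v * w v := by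
    congr 1
    funext v
    ring
  rw [e1] at h6
  have h7 : 0 ≤ EP (nm K) ε fun v => w v * w v := EP_nonneg fun v => mul_self_nonneg _
  have h8 : (EP (nm K) ε fun v => R v ^ 2) ≤ Real.log (1 / ε) + |C| := by
    have := le_abs_self C
    linarith
  rw [← add_div, div_pow, div_mul_div_comm, ← pow_two]
  refine div_le_div_of_nonneg_right ?_ (by positivity)
  exact h6.trans (mul_le_mul_of_nonneg_right h8 h7)

open Classical in
/-- the Gram numbers of a family of functions indexed by the heights -/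
theorem heights_sum {R : HeightOneSpectrum (𝓞 K) → ℝ} (hR2 : ∀ v, |R v| ≤ 2) {C : ℝ}
    (hR : ∀ᶠ ε : ℝ in 𝓝[>] 0, (EP (nm K) ε fun v => R v ^ 2) ≤ Real.log (1 / ε) + C)
    {w : ℝ → HeightOneSpectrum (𝓞 K) → ℝ} {Bw : ℝ} (hwb : ∀ τ v, |w τ v| ≤ Bw) {A : ℝ}
    (hA : ∀ τ τ' : ℝ, Tendsto (fun ε : ℝ => (EP (nm K) ε fun v => w τ v * w τ' v) / lam ε)
      (𝓝[>] 0) (𝓝 (((if τ = τ' then 1 else 0) + (if τ = -τ' then 1 else 0)) / 2 * A)))
    (S : Finset ℝ) {M : ℝ → ℝ}
    (hm : ∀ τ ∈ S, Tendsto (fun ε : ℝ => (EP (nm K) ε fun v => R v * w τ v) / lam ε) (𝓝[>] 0)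
      (𝓝 (-M τ))) : ∑ τ ∈ S, M τ ^ 2 ≤ A := by
  have hN : NormSys (nm K) := normSys
  have hBw0 : 0 ≤ |Bw| := abs_nonneg _
  have hwb' : ∀ τ v, |w τ v| ≤ |Bw| := fun τ v => (hwb τ v).trans (le_abs_self _)
  have hA0 : 0 ≤ A := by
    have h1 := hA 0 0
    have e : ((if (0 : ℝ) = 0 then (1 : ℝ) else 0) + (if (0 : ℝ) = -0 then 1 else 0)) / 2 * A =
      A := by
      rw [if_pos rfl, if_pos (by norm_num)]
      ring
    rw [e] at h1
    refine ge_of_tendsto h1 ?_
    filter_upwards [lam_tendsto.eventually_gt_atTop 0] with ε h2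
    exact div_nonneg (EP_nonneg fun v => mul_self_nonneg _) h2.le
  set W : HeightOneSpectrum (𝓞 K) → ℝ := fun v => ∑ τ ∈ S, M τ * w τ v with hW
  have hWb : ∀ v, |W v| ≤ ∑ τ ∈ S, |M τ| * |Bw| := fun v => by
    rw [hW]
    refine (Finset.abs_sum_le_sum_abs _ _).trans (Finset.sum_le_sum fun τ _ => ?_)
    rw [abs_mul]
    exact mul_le_mul_of_nonneg_left (hwb' τ v) (abs_nonneg _)
  have h1 : Tendsto (fun ε : ℝ => (EP (nm K) ε fun v => R v * W v) / lam ε) (𝓝[>] 0)
      (𝓝 (-∑ τ ∈ S, M τ ^ 2)) := by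
    have h2 := tendsto_finsetSum S fun τ hτ => (hm τ hτ).const_mul (M τ)
    have e : ∑ τ ∈ S, M τ * -M τ = -∑ τ ∈ S, M τ ^ 2 := by
      rw [← Finset.sum_neg_distrib]
      exact Finset.sum_congr rfl fun τ _ => by ring
    rw [e] at h2
    refine h2.congr' ?_
    filter_upwards [self_mem_nhdsWithin] with ε hε
    have hε' : (0 : ℝ) < ε := hε
    have e2 : (fun v => R v * W v) = fun v => ∑ τ ∈ S, M τ * (R v * w τ v) := by
      funext v
      rw [hW]
      simp only
      rw [Finset.mul_sum]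
      exact Finset.sum_congr rfl fun τ _ => by ring
    rw [e2, EP_sum hN hε' S (fun τ v => M τ * (R v * w τ v)) (fun τ => |M τ| * (2 * |Bw|))
      (fun τ _ v => by
        rw [abs_mul, abs_mul (R v)]
        exact mul_le_mul_of_nonneg_left (mul_le_mul (hR2 v) (hwb' τ v) (abs_nonneg _)
          (by norm_num)) (abs_nonneg _)), Finset.sum_div]
    refine Finset.sum_congr rfl fun τ _ => ?_
    rw [EP_const_mul, mul_div_assoc]
  have h2 : Tendsto (fun ε : ℝ => (EP (nm K) ε fun v => W v * W v) / lam ε) (𝓝[>] 0)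
      (𝓝 (∑ τ ∈ S, ∑ τ' ∈ S, M τ * M τ' *
        (((if τ = τ' then 1 else 0) + (if τ = -τ' then 1 else 0)) / 2 * A))) := by
    have h3 := tendsto_finsetSum S fun τ _ => tendsto_finsetSum S fun τ' _ =>
      (hA τ τ').const_mul (M τ * M τ')
    refine h3.congr' ?_
    filter_upwards [self_mem_nhdsWithin] with ε hε
    have hε' : (0 : ℝ) < ε := hε
    have hb : ∀ τ τ' : ℝ, ∀ v, |M τ * M τ' * (w τ v * w τ' v)| ≤
        |M τ * M τ'| * (|Bw| * |Bw|) := by
      intro τ τ' v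
      rw [abs_mul, abs_mul (w τ v)]
      exact mul_le_mul_of_nonneg_left (mul_le_mul (hwb' τ v) (hwb' τ' v) (abs_nonneg _) hBw0)
        (abs_nonneg _)
    have e2 : (fun v => W v * W v) = fun v => ∑ τ ∈ S, ∑ τ' ∈ S,
        M τ * M τ' * (w τ v * w τ' v) := by
      funext v
      rw [hW]
      simp only
      rw [Finset.sum_mul_sum]
      exact Finset.sum_congr rfl fun k _ => Finset.sum_congr rfl fun l _ => by ring
    rw [e2, EP_sum hN hε' S (fun τ v => ∑ τ' ∈ S, M τ * M τ' * (w τ v * w τ' v))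
      (fun τ => ∑ τ' ∈ S, |M τ * M τ'| * (|Bw| * |Bw|))
      (fun τ _ v => (Finset.abs_sum_le_sum_abs _ _).trans
        (Finset.sum_le_sum fun τ' _ => hb τ τ' v)), Finset.sum_div]
    refine Finset.sum_congr rfl fun τ _ => ?_
    rw [EP_sum hN hε' S (fun τ' v => M τ * M τ' * (w τ v * w τ' v))
      (fun τ' => |M τ * M τ'| * (|Bw| * |Bw|)) (fun τ' _ v => hb τ τ' v), Finset.sum_div]
    refine Finset.sum_congr rfl fun τ' _ => ?_
    rw [EP_const_mul, mul_div_assoc]
  have h3 := abs_bound hR2 hR hWb h1 h2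
  set Q : ℝ := ∑ τ ∈ S, M τ ^ 2 with hQ
  have hQ0 : 0 ≤ Q := Finset.sum_nonneg fun τ _ => sq_nonneg _
  have h4 : ∑ τ ∈ S, ∑ τ' ∈ S, M τ * M τ' *
        (((if τ = τ' then 1 else 0) + (if τ = -τ' then 1 else 0)) / 2 * A) ≤ A * Q := by
    have h5 : ∀ τ ∈ S, ∑ τ' ∈ S, M τ * M τ' *
        (((if τ = τ' then 1 else 0) + (if τ = -τ' then 1 else 0)) / 2 * A) ≤
        A / 2 * (M τ ^ 2) + A / 2 * ((M τ ^ 2 + (if -τ ∈ S then M (-τ) ^ 2 else 0)) / 2) := by
      intro τ hτ
      have e1 : ∀ τ' ∈ S, M τ * M τ' *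
          (((if τ = τ' then 1 else 0) + (if τ = -τ' then 1 else 0)) / 2 * A) =
          (if τ = τ' then A / 2 * (M τ * M τ') else 0) +
          (if -τ = τ' then A / 2 * (M τ * M τ') else 0) := by
        intro τ' _
        have e2 : (τ = -τ') ↔ (-τ = τ') := by
          constructor
          · intro h; rw [h, neg_neg]
          · intro h; rw [← h, neg_neg]
        simp only [e2]
        split_ifs <;> ring
      rw [Finset.sum_congr rfl e1, Finset.sum_add_distrib, Finset.sum_ite_eq, Finset.sum_ite_eq,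
        if_pos hτ]
      have h6 : (if -τ ∈ S then A / 2 * (M τ * M (-τ)) else 0) ≤
          A / 2 * ((M τ ^ 2 + (if -τ ∈ S then M (-τ) ^ 2 else 0)) / 2) := by
        split_ifs
        · refine mul_le_mul_of_nonneg_left ?_ (by positivity)
          nlinarith [sq_nonneg (M τ - M (-τ))]
        · have := sq_nonneg (M τ)
          positivity
      have e3 : A / 2 * (M τ * M τ) = A / 2 * M τ ^ 2 := by ring
      rw [e3]
      linarith
    refine (Finset.sum_le_sum h5).trans ?_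
    rw [Finset.sum_add_distrib, ← Finset.mul_sum, ← Finset.mul_sum, ← Finset.sum_div,
      Finset.sum_add_distrib, ← hQ]
    have h6 : ∑ τ ∈ S, (if -τ ∈ S then M (-τ) ^ 2 else 0) ≤ Q := by
      rw [← Finset.sum_filter]
      have h7 : ∑ τ ∈ S.filter (fun τ => -τ ∈ S), M (-τ) ^ 2 =
          ∑ τ ∈ (S.filter (fun τ => -τ ∈ S)).image (fun τ => -τ), M τ ^ 2 := by
        rw [Finset.sum_image]
        intro x _ y _ h
        exact neg_injective h
      rw [h7, hQ]
      refine Finset.sum_le_sum_of_subset_of_nonneg ?_ fun τ _ _ => sq_nonneg _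
      intro τ hτ
      rw [Finset.mem_image] at hτ
      obtain ⟨y, hy, rfl⟩ := hτ
      exact (Finset.mem_filter.1 hy).2
    have h8 : A / 2 * ((Q + ∑ τ ∈ S, (if -τ ∈ S then M (-τ) ^ 2 else 0)) / 2) ≤ A / 2 * Q := by
      refine mul_le_mul_of_nonneg_left ?_ (by positivity)
      linarith
    linarith
  have h5 : Q ^ 2 ≤ A * Q := h3.trans h4
  rcases hQ0.eq_or_lt with h6 | h6
  · rw [← h6]; exact hA0
  · by_contra h7
    push Not at h7
    have := mul_lt_mul_of_pos_right h7 h6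
    nlinarith

end

end Pool.Agent.R433.NF
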