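import Pool.Agent.R433.NF.Abs

/-! Combinations of number fields: second moments, bounds and the case of equality. -/

set_option autoImplicit false

namespace Pool.Agent.R433.NF

open Complex Filter Topology ComplexConjugate NumberField IsDedekindDomain Asymptotics
  Pool.Agent.W401.Cheb Pool.Agent.W540.BE Pool.Agent.W353.L1 Pool.Agent.W353.NF
open Pool.Agent.H341R2 (lam lam_tendsto)
open Pool.Agent.Y722.EP (log_ratio rE abs_rE)
open Pool.Agent.R433.AT (MeanOne EP_cauchy zz_mul zz_conj)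
open scoped TensorProduct

section
variable {K : Type} [Field K] [NumberField K]

variable {κ : Type} [Fintype κ] {F : κ → Type} [∀ k, Field (F k)] [∀ k, NumberField (F k)]
  [∀ k, Algebra K (F k)]

/-- combinations of number fields -/
noncomputable def vs (F : κ → Type) [∀ k, Field (F k)] [∀ k, NumberField (F k)]
    [∀ k, Algebra K (F k)] (d : κ → ℝ) (σ : HeightOneSpectrum (𝓞 K) → GK K) (τ : ℝ)
    (v : HeightOneSpectrum (𝓞 K)) : ℝ := ∑ k, d k * fz K (F k) σ τ v

theorem abs_vs (d : κ → ℝ) (σ : HeightOneSpectrum (𝓞 K) → GK K) (τ : ℝ)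
    (v : HeightOneSpectrum (𝓞 K)) :
    |vs F d σ τ v| ≤ ∑ k, |d k| * Module.finrank ℚ (F k) := by
  unfold vs
  refine (Finset.abs_sum_le_sum_abs _ _).trans (Finset.sum_le_sum fun k _ => ?_)
  rw [abs_mul]
  exact mul_le_mul_of_nonneg_left (abs_fz σ τ v) (abs_nonneg _)

/-- second moments -/
theorem vs_second (d : κ → ℝ) (σ : HeightOneSpectrum (𝓞 K) → GK K) (hσ : ∀ v, IsFrob v (σ v))
    (τ τ' : ℝ) [Decidable (τ = τ')] [Decidable (τ = -τ')] :
    Tendsto (fun ε : ℝ => (EP (nm K) ε fun v => vs F d σ τ v * vs F d σ τ' v) / lam ε) (𝓝[>] 0)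
      (𝓝 (((if τ = τ' then 1 else 0) + (if τ = -τ' then 1 else 0)) / 2 *
        ∑ k, ∑ l, d k * d l * (nfac K (F k) (F l) : ℝ))) := by
  have hN : NormSys (nm K) := normSys
  have h1 : ∀ k l, Tendsto (fun ε : ℝ => d k * d l * ((EP (nm K) ε fun v => fz K (F k) σ τ v *
      fz K (F l) σ τ' v) / lam ε)) (𝓝[>] 0)
      (𝓝 (d k * d l * (((if τ = τ' then 1 else 0) + (if τ = -τ' then 1 else 0)) / 2 *
        (nfac K (F k) (F l) : ℝ)))) := fun k l =>
    (fz_second (K := K) (F := F k) (F' := F l) σ hσ τ τ').const_mul (d k * d l)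
  have h2 := tendsto_finsetSum (Finset.univ : Finset κ) fun k _ =>
    tendsto_finsetSum (Finset.univ : Finset κ) fun l _ => h1 k l
  have e : ∑ k, ∑ l, d k * d l * (((if τ = τ' then 1 else 0) + (if τ = -τ' then 1 else 0)) / 2 *
      (nfac K (F k) (F l) : ℝ)) = ((if τ = τ' then 1 else 0) + (if τ = -τ' then 1 else 0)) / 2 *
        ∑ k, ∑ l, d k * d l * (nfac K (F k) (F l) : ℝ) := by
    rw [Finset.mul_sum]
    refine Finset.sum_congr rfl fun k _ => ?_
    rw [Finset.mul_sum]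
    exact Finset.sum_congr rfl fun l _ => by ring
  rw [e] at h2
  refine h2.congr' ?_
  filter_upwards [self_mem_nhdsWithin] with ε hε
  have hε' : (0 : ℝ) < ε := hε
  have hb : ∀ k l, ∀ v, |d k * d l * (fz K (F k) σ τ v * fz K (F l) σ τ' v)| ≤
      |d k * d l| * ((Module.finrank ℚ (F k) : ℝ) * Module.finrank ℚ (F l)) := by
    intro k l v
    rw [abs_mul, abs_mul (fz K (F k) σ τ v)]
    exact mul_le_mul_of_nonneg_left (mul_le_mul (abs_fz σ τ v) (abs_fz σ τ' v) (abs_nonneg _)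
      (Nat.cast_nonneg _)) (abs_nonneg _)
  have e1 : (EP (nm K) ε fun v => vs F d σ τ v * vs F d σ τ' v) =
      ∑ k, ∑ l, d k * d l * EP (nm K) ε fun v => fz K (F k) σ τ v * fz K (F l) σ τ' v := by
    have e2 : (fun v => vs F d σ τ v * vs F d σ τ' v) = fun v => ∑ k, ∑ l,
        d k * d l * (fz K (F k) σ τ v * fz K (F l) σ τ' v) := by
      funext v
      unfold vs
      rw [Finset.sum_mul_sum]
      exact Finset.sum_congr rfl fun k _ => Finset.sum_congr rfl fun l _ => by ring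
    rw [e2, EP_sum hN hε' Finset.univ (fun k v => ∑ l,
      d k * d l * (fz K (F k) σ τ v * fz K (F l) σ τ' v))
      (fun k => ∑ l, |d k * d l| * ((Module.finrank ℚ (F k) : ℝ) * Module.finrank ℚ (F l)))
      (fun k _ v => (Finset.abs_sum_le_sum_abs _ _).trans
        (Finset.sum_le_sum fun l _ => hb k l v))]
    refine Finset.sum_congr rfl fun k _ => ?_
    rw [EP_sum hN hε' Finset.univ (fun l v => d k * d l * (fz K (F k) σ τ v * fz K (F l) σ τ' v))
      (fun l => |d k * d l| * ((Module.finrank ℚ (F k) : ℝ) * Module.finrank ℚ (F l)))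
      (fun l _ v => hb k l v)]
    exact Finset.sum_congr rfl fun l _ => EP_const_mul _ _
  rw [e1, Finset.sum_div]
  refine Finset.sum_congr rfl fun k _ => ?_
  rw [Finset.sum_div]
  exact Finset.sum_congr rfl fun l _ => by ring

/-- mean values with a bounded function -/
theorem vs_mean {R : HeightOneSpectrum (𝓞 K) → ℝ} (hR2 : ∀ v, |R v| ≤ 2) (d : κ → ℝ)
    (σ : HeightOneSpectrum (𝓞 K) → GK K) (τ : ℝ) {m : κ → ℝ}
    (hm : ∀ k, Tendsto (fun ε : ℝ => (EP (nm K) ε fun v => R v * fz K (F k) σ τ v) / lam ε)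
      (𝓝[>] 0) (𝓝 (-m k))) :
    Tendsto (fun ε : ℝ => (EP (nm K) ε fun v => R v * vs F d σ τ v) / lam ε) (𝓝[>] 0)
      (𝓝 (-∑ k, d k * m k)) := by
  have hN : NormSys (nm K) := normSys
  have h1 := tendsto_finsetSum (Finset.univ : Finset κ) fun k _ => (hm k).const_mul (d k)
  have e : ∑ k, d k * -m k = -∑ k, d k * m k := by
    rw [← Finset.sum_neg_distrib]
    exact Finset.sum_congr rfl fun k _ => by ring
  rw [e] at h1
  refine h1.congr' ?_
  filter_upwards [self_mem_nhdsWithin] with ε hε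
  have hε' : (0 : ℝ) < ε := hε
  have e2 : (fun v => R v * vs F d σ τ v) = fun v => ∑ k, d k * (R v * fz K (F k) σ τ v) := by
    funext v
    unfold vs
    rw [Finset.mul_sum]
    exact Finset.sum_congr rfl fun k _ => by ring
  rw [e2, EP_sum hN hε' Finset.univ (fun k v => d k * (R v * fz K (F k) σ τ v))
    (fun k => |d k| * (2 * Module.finrank ℚ (F k))) (fun k _ v => by
      rw [abs_mul, abs_mul (R v)]
      exact mul_le_mul_of_nonneg_left (mul_le_mul (hR2 v) (abs_fz σ τ v) (abs_nonneg _)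
        (by norm_num)) (abs_nonneg _)), Finset.sum_div]
  refine Finset.sum_congr rfl fun k _ => ?_
  rw [EP_const_mul, mul_div_assoc]

/-- on the kernel of the action -/
theorem vs_ker (d : κ → ℝ) (σ : HeightOneSpectrum (𝓞 K) → GK K) (τ : ℝ)
    {v : HeightOneSpectrum (𝓞 K)} (hv : σ v ∈ ⨅ k, (act K (F k)).ker) :
    vs F d σ τ v = (∑ k, d k * Module.finrank K (F k)) * cz τ v := by
  unfold vs
  rw [Finset.sum_mul]
  refine Finset.sum_congr rfl fun k _ => ?_
  unfold fz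
  rw [fixn_ker ((iInf_le (fun k => (act K (F k)).ker) k) hv)]
  ring

/-- **The case of equality for combinations of fields.** -/
theorem combo_strict {R : HeightOneSpectrum (𝓞 K) → ℝ} (hR2 : ∀ v, |R v| ≤ 2) {C : ℝ}
    (hR : ∀ᶠ ε : ℝ in 𝓝[>] 0, (EP (nm K) ε fun v => R v ^ 2) ≤ Real.log (1 / ε) + C)
    (σ : HeightOneSpectrum (𝓞 K) → GK K) (hσ : ∀ v, IsFrob v (σ v)) (d : κ → ℝ) (τ : ℝ)
    {M A : ℝ}
    (hm : Tendsto (fun ε : ℝ => (EP (nm K) ε fun v => R v * vs F d σ τ v) / lam ε) (𝓝[>] 0)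
      (𝓝 (-M)))
    (hA : Tendsto (fun ε : ℝ => (EP (nm K) ε fun v => vs F d σ τ v * vs F d σ τ v) / lam ε)
      (𝓝[>] 0) (𝓝 A)) (hA0 : 0 < A) (hMA : M ^ 2 = A) :
    (∑ k, d k * Module.finrank K (F k)) ^ 2 ≤ 4 * A := by
  have hU : IsOpen ((⨅ k, (act K (F k)).ker : Subgroup (GK K)) : Set (GK K)) := by
    rw [Subgroup.coe_iInf]
    exact isOpen_iInter_of_finite fun k => ker_act_open K (F k)
  have hUn : (⨅ k, (act K (F k)).ker : Subgroup (GK K)).Normal :=
    Subgroup.normal_iInf_normal fun k => inferInstance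
  exact abs_strict hR2 hR σ hσ τ _ hU (abs_vs d σ τ) (fun v hv => vs_ker d σ τ hv) hm hA hA0 hMA

/-- the same for a pair of fields -/
theorem pair_strict {L : Type} [Field L] [NumberField L] [Algebra K L]
    {R : HeightOneSpectrum (𝓞 K) → ℝ} (hR2 : ∀ v, |R v| ≤ 2) {C : ℝ}
    (hR : ∀ᶠ ε : ℝ in 𝓝[>] 0, (EP (nm K) ε fun v => R v ^ 2) ≤ Real.log (1 / ε) + C)
    (σ : HeightOneSpectrum (𝓞 K) → GK K) (hσ : ∀ v, IsFrob v (σ v)) (τ : ℝ)
    {M A : ℝ}
    (hm : Tendsto (fun ε : ℝ => (EP (nm K) ε fun v => R v * fw K L σ τ v) / lam ε) (𝓝[>] 0)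
      (𝓝 (-M)))
    (hA : Tendsto (fun ε : ℝ => (EP (nm K) ε fun v => fw K L σ τ v * fw K L σ τ v) / lam ε)
      (𝓝[>] 0) (𝓝 A)) (hA0 : 0 < A) (hMA : M ^ 2 = A) :
    ((Module.finrank K L : ℝ) - 1) ^ 2 ≤ 4 * A := by
  refine abs_strict hR2 hR σ hσ τ (act K L).ker (ker_act_open K L) (abs_fw σ τ)
    (fun v hv => ?_) hm hA hA0 hMA
  unfold fw
  rw [fz_self]
  unfold fz
  rw [fixn_ker hv]
  ring

end

end Pool.Agent.R433.NF
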