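import Pool.Agent.R433.NF.Core
import Pool.Agent.R433.AT.Equal
import Pool.Agent.W353.NF.EC

/-! Sizes of `y² = x³ + a x + b` over number fields in terms of fixed embeddings. -/

set_option autoImplicit false

namespace Pool.Agent.R433.NF

open Complex Filter Topology ComplexConjugate NumberField IsDedekindDomain Asymptotics
  Pool.Agent.W401.Cheb Pool.Agent.W540.BE Pool.Agent.W353.L1 Pool.Agent.W353.NF
open Pool.Agent.H341R2 (lam lam_tendsto sysK)
open Pool.Agent.Y722.EP (log_ratio points trace rE abs_rE rE_eq trace_kerPrime)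
open Pool.Agent.R433.AT (MeanOne EP_cauchy Wab Wab_disc rE_eventually)
open Pool.Agent.W353.TP (HX sysH push push_abs_le qh qh_abs qh_eq res LL LL_tendsto E_H
  bdd_isLittleO lam0_sub)
open Pool.Agent.W353.AB (Sy vq syE tEH csH LE)
open Pool.Agent.H921R2.TatePole (kerPrime)
open Pool.Agent.H341R2.EC (csum short aff_eq_short short_eq IsModel IsMinAt)

section
variable {K : Type} [Field K] [NumberField K]

theorem points_map (a b : ℤ) {S : Type} [CommRing S] (u : 𝓞 K →+* S) :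
    affCount ((Wab K a b).map u) + 1 = points S a b := by
  unfold affCount points Wab
  have : (fun P : S × S =>
      P.2 ^ 2 + (WeierstrassCurve.map (⟨0, 0, 0, (a : 𝓞 K), (b : 𝓞 K)⟩ : WeierstrassCurve (𝓞 K))
        u).a₁ * P.1 * P.2 +
      (WeierstrassCurve.map (⟨0, 0, 0, (a : 𝓞 K), (b : 𝓞 K)⟩ : WeierstrassCurve (𝓞 K))
        u).a₃ * P.2 =
      P.1 ^ 3 + (WeierstrassCurve.map (⟨0, 0, 0, (a : 𝓞 K), (b : 𝓞 K)⟩ : WeierstrassCurve (𝓞 K))
        u).a₂ * P.1 ^ 2 +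
      (WeierstrassCurve.map (⟨0, 0, 0, (a : 𝓞 K), (b : 𝓞 K)⟩ : WeierstrassCurve (𝓞 K))
        u).a₄ * P.1 +
      (WeierstrassCurve.map (⟨0, 0, 0, (a : 𝓞 K), (b : 𝓞 K)⟩ : WeierstrassCurve (𝓞 K))
        u).a₆) =
      fun P => P.2 ^ 2 = P.1 ^ 3 + (a : S) * P.1 + (b : S) := by
    funext P
    simp [WeierstrassCurve.map]
  rw [this]

/-- the invariants of the curve -/
noncomputable def PP (K : Type) [Field K] [NumberField K] (a b : ℤ) : 𝓞 K := (Wab K a b).c₄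

/-- the invariants of the curve -/
noncomputable def QQ (K : Type) [Field K] [NumberField K] (a b : ℤ) : 𝓞 K := (Wab K a b).c₆

theorem disc_ne {a b : ℤ} (h : 4 * a ^ 3 + 27 * b ^ 2 ≠ 0) :
    PP K a b ^ 3 - QQ K a b ^ 2 ≠ 0 := by
  unfold PP QQ
  rw [← (Wab K a b).c_relation]
  exact mul_ne_zero (by norm_num) (Wab_disc h)

theorem TT_eq (a b : ℤ) (x : HX K) (h6 : (6 : 𝓞 K) ∉ (vx x).asIdeal)
    (hD : PP K a b ^ 3 - QQ K a b ^ 2 ∉ (vx x).asIdeal) :
    W353.NF.TT (syE (PP K a b) (QQ K a b)) x = rE a b (vx x) := by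
  rcases x with ⟨p, u⟩
  have : Fact (p : ℕ).Prime := ⟨p.2⟩
  have h6' : u 6 ≠ 0 := h6
  have hD' : u (PP K a b ^ 3 - QQ K a b ^ 2) ≠ 0 := hD
  have h6'' : (6 : ZMod (p : ℕ)) ≠ 0 := by
    rw [map_ofNat] at h6'
    exact h6'
  have h2 : (2 : 𝓞 K) ∉ (kerPrime p u).1.1.asIdeal := by
    intro h
    apply h6
    have : (6 : 𝓞 K) = 3 * 2 := by norm_num
    change (6 : 𝓞 K) ∈ (kerPrime p u).1.1.asIdeal
    rw [this]
    exact Ideal.mul_mem_left _ _ h
  have e1 : W353.NF.TT (syE (PP K a b) (QQ K a b)) ⟨p, u⟩ = (tEH (PP K a b) (QQ K a b) ⟨p, u⟩).re := by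
    unfold W353.NF.TT
    exact Finset.sum_singleton _ _
  have e2 : tEH (PP K a b) (QQ K a b) ⟨p, u⟩ =
      -(csH (PP K a b) (QQ K a b) ⟨p, u⟩ : ℂ) * ((Real.sqrt (p : ℕ) : ℝ) : ℂ)⁻¹ := by
    unfold tEH
    exact if_pos ⟨h6', hD'⟩
  have e3 : (trace (kerPrime p u).1.1 a b : ℤ) = -csH (PP K a b) (QQ K a b) ⟨p, u⟩ := by
    rw [trace_kerPrime]
    have f1 : affCount ((Wab K a b).map u) = short ((Wab K a b).map u).c₄ ((Wab K a b).map u).c₆ :=
      aff_eq_short h6'' _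
    have f2 := short_eq h6'' ((Wab K a b).map u).c₄ ((Wab K a b).map u).c₆
    have f3 : (short ((Wab K a b).map u).c₄ ((Wab K a b).map u).c₆ : ℤ) =
        Fintype.card (ZMod (p : ℕ)) + csum ((Wab K a b).map u).c₄ ((Wab K a b).map u).c₆ := f2
    have f4 : csum ((Wab K a b).map u).c₄ ((Wab K a b).map u).c₆ =
        csH (PP K a b) (QQ K a b) ⟨p, u⟩ := by
      rw [WeierstrassCurve.map_c₄, WeierstrassCurve.map_c₆]
      rfl
    have f5 := points_map (K := K) a b u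
    rw [← f5, f1]
    push_cast
    rw [f3, f4, ZMod.card]
    ring
  rw [e1, e2]
  change _ = rE a b (kerPrime p u).1.1
  rw [rE_eq h2 a b, e3]
  have hn : nm K (kerPrime p u).1.1 = (p : ℕ) := Pool.Agent.H341R2.nm_kerPrime p u
  rw [hn]
  have e4 : -(csH (PP K a b) (QQ K a b) ⟨p, u⟩ : ℂ) * ((Real.sqrt (p : ℕ) : ℝ) : ℂ)⁻¹ =
      (((((-csH (PP K a b) (QQ K a b) ⟨p, u⟩ : ℤ)) : ℝ) / Real.sqrt (p : ℕ) : ℝ) : ℂ) := by
    push_cast
    ring
  rw [e4, Complex.ofReal_re]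

theorem TT_cofinite {a b : ℤ} (hΔ : 4 * a ^ 3 + 27 * b ^ 2 ≠ 0) :
    ∃ S : Finset (HeightOneSpectrum (𝓞 K)), ∀ x : HX K, vx x ∉ S →
      W353.NF.TT (syE (PP K a b) (QQ K a b)) x = rE a b (vx x) := by
  classical
  have h6 : (6 : 𝓞 K) ≠ 0 := by norm_num
  have f1 := finite_mem_prime h6
  have f2 := finite_mem_prime (disc_ne (K := K) hΔ)
  refine ⟨f1.toFinset ∪ f2.toFinset, fun x hx => ?_⟩
  rw [Finset.mem_union, not_or, Set.Finite.mem_toFinset, Set.Finite.mem_toFinset] at hx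
  exact TT_eq a b x hx.1 hx.2

/-- from the homomorphisms to the primes -/
theorem EH_to_EP {T : HX K → ℝ} {r Ψ : HeightOneSpectrum (𝓞 K) → ℝ} {A B : ℝ}
    (hT : ∀ x, |T x| ≤ A) (hr : ∀ v, |r v| ≤ A) (hΨ : ∀ v, |Ψ v| ≤ B)
    (S : Finset (HeightOneSpectrum (𝓞 K))) (hS : ∀ x : HX K, vx x ∉ S → T x = r (vx x)) :
    ∃ C : ℝ, ∀ ε : ℝ, 0 < ε →
      |(sysH K).E ε (fun x => T x * Ψ (vx x)) - EP (nm K) ε (fun v => r v * Ψ v)| ≤ C := by
  classical
  have hA : 0 ≤ A := (abs_nonneg _).trans (hT ((sysH K).nonempty.some))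
  have hB : 0 ≤ B := (abs_nonneg _).trans (hΨ (vx ((sysH K).nonempty.some)))
  have hdiff : ∀ x : HX K, |T x * Ψ (vx x) - r (vx x) * Ψ (vx x)| ≤
      (2 * A * B) * (if vx x ∈ S then 1 else 0) := by
    intro x
    by_cases h : vx x ∈ S
    · rw [if_pos h, mul_one, ← sub_mul, abs_mul]
      refine mul_le_mul ?_ (hΨ _) (abs_nonneg _) (by positivity)
      refine (abs_sub _ _).trans ?_
      have := hT x
      have := hr (vx x)
      linarith
    · rw [if_neg h, mul_zero, hS x h, sub_self, abs_zero]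
  obtain ⟨C, hC⟩ := EH_le (K := K) (φ := fun x => T x * Ψ (vx x) - r (vx x) * Ψ (vx x))
    (g := fun v => (2 * A * B) * (if v ∈ S then 1 else 0)) (B := 2 * A * B)
    (fun v => by
      split_ifs
      · rw [mul_one, abs_of_nonneg (by positivity)]
      · rw [mul_zero, abs_zero]; positivity) hdiff
  have hrΨ : ∀ v, |r v * Ψ v| ≤ A * B := fun v => by
    rw [abs_mul]
    exact mul_le_mul (hr v) (hΨ v) (abs_nonneg _) hA
  refine ⟨(S.card * (2 * A * B) + C) +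
    (A * B) * Module.finrank ℚ K * Pool.Agent.H921R2.TatePole.C0, fun ε hε => ?_⟩
  have h1 := hC ε hε
  have h2 : EP (nm K) ε (fun v => (2 * A * B) * (if v ∈ S then 1 else 0)) ≤
      S.card * (2 * A * B) := by
    refine (le_abs_self _).trans (EP_finsupp normSys S _ (fun v hv => ?_) _ (fun v => ?_) hε)
    · rw [if_neg hv, mul_zero]
    · split_ifs
      · rw [mul_one, abs_of_nonneg (by positivity)]
      · rw [mul_zero, abs_zero]; positivity
  have h3 := E_H (K := K) hrΨ hε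
  have hb1 : ∀ x : HX K, |T x * Ψ (vx x)| ≤ A * B := fun x => by
    rw [abs_mul]
    exact mul_le_mul (hT x) (hΨ _) (abs_nonneg _) hA
  have e1 : (sysH K).E ε (fun x => T x * Ψ (vx x) - r (vx x) * Ψ (vx x)) =
      (sysH K).E ε (fun x => T x * Ψ (vx x)) - (sysH K).E ε (fun x => r (vx x) * Ψ (vx x)) := by
    have hb2 : ∀ x : HX K, |(-1 : ℝ) * (r (vx x) * Ψ (vx x))| ≤ A * B := fun x => by
      rw [abs_mul, abs_neg, abs_one, one_mul]
      exact hrΨ _
    have e5 := (sysH K).E_add hε hb1 hb2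
    rw [(sysH K).E_const_mul] at e5
    have e6 : (fun x : HX K => T x * Ψ (vx x) - r (vx x) * Ψ (vx x)) =
        fun x : HX K => T x * Ψ (vx x) + (-1 : ℝ) * (r (vx x) * Ψ (vx x)) := by
      funext x
      ring
    exact (congrArg ((sysH K).E ε) e6).trans (e5.trans (by ring))
  have h7 : |(sysH K).E ε (fun x => T x * Ψ (vx x)) - (sysH K).E ε (fun x => r (vx x) * Ψ (vx x))|
      ≤ EP (nm K) ε (fun v => (2 * A * B) * (if v ∈ S then 1 else 0)) + C := by
    rw [← e1]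
    exact h1
  have h8 : |EP (nm K) ε (fun v => r v * Ψ v) - (sysH K).E ε (fun x => r (vx x) * Ψ (vx x))| ≤
      (A * B) * Module.finrank ℚ K * Pool.Agent.H921R2.TatePole.C0 := h3
  have h5 := abs_le.1 h7
  have h6 := abs_le.1 h8
  rw [abs_le]
  constructor <;> linarith [h5.1, h5.2, h6.1, h6.2]

end

end Pool.Agent.R433.NF
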