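import Pool.Agent.R433.NF.Size

/-! The matrix inequality over number fields and its consequences. -/

set_option autoImplicit false

namespace Pool.Agent.R433.NF

open Complex Filter Topology ComplexConjugate NumberField IsDedekindDomain Asymptotics
  Pool.Agent.W401.Cheb Pool.Agent.W540.BE Pool.Agent.W353.L1 Pool.Agent.W353.NF
open Pool.Agent.H341R2 (lam lam_tendsto)
open Pool.Agent.Y722.EP (log_ratio rE abs_rE)
open Pool.Agent.R433.AT (MeanOne EP_cauchy)
open scoped TensorProduct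

section
variable {K : Type} [Field K] [NumberField K]

theorem card_max_field {R L : Type} [CommRing R] [Field L] (e : R ≃+* L) :
    Nat.card (MaximalSpectrum R) = 1 := by
  have hnt : Nontrivial R := e.toEquiv.nontrivial
  obtain ⟨m0, hm0⟩ := Ideal.exists_maximal R
  have h : ∀ m : MaximalSpectrum R, m.asIdeal = ⊥ := by
    intro m
    rw [eq_bot_iff]
    intro x hx
    rw [Ideal.mem_bot]
    by_contra hne
    have h1 : IsUnit (e x) := IsUnit.mk0 _ (fun h => hne (by
      rw [← map_zero e] at h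
      exact e.injective h))
    have h2 : IsUnit x := (MulEquiv.isUnit_map e).1 h1
    exact m.isMaximal.ne_top (Ideal.eq_top_of_isUnit_mem _ hx h2)
  have hu : Unique (MaximalSpectrum R) :=
    { default := ⟨m0, hm0⟩
      uniq := fun m => MaximalSpectrum.ext (by rw [h m, h ⟨m0, hm0⟩]) }
  exact Nat.card_unique

variable {F F' : Type} [Field F] [NumberField F] [Algebra K F] [Field F'] [NumberField F']
  [Algebra K F']

theorem nfac_right : nfac K F K = 1 :=
  card_max_field (Algebra.TensorProduct.rid K K F).toRingEquiv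

theorem nfac_left : nfac K K F = 1 :=
  card_max_field (Algebra.TensorProduct.lid K F).toRingEquiv

theorem fz_self (σ : HeightOneSpectrum (𝓞 K) → GK K) (τ : ℝ) (v : HeightOneSpectrum (𝓞 K)) :
    fz K K σ τ v = cz τ v := by
  unfold fz
  rw [fixn_self, Nat.cast_one, one_mul]

/-- the difference with the base field -/
noncomputable def fw (K F : Type) [Field K] [NumberField K] [Field F] [NumberField F]
    [Algebra K F] (σ : HeightOneSpectrum (𝓞 K) → GK K) (τ : ℝ)
    (v : HeightOneSpectrum (𝓞 K)) : ℝ := fz K F σ τ v - fz K K σ τ v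

theorem abs_fw (σ : HeightOneSpectrum (𝓞 K) → GK K) (τ : ℝ) (v : HeightOneSpectrum (𝓞 K)) :
    |fw K F σ τ v| ≤ Module.finrank ℚ F + Module.finrank ℚ K := by
  unfold fw
  exact (abs_sub _ _).trans (add_le_add (abs_fz σ τ v) (abs_fz σ τ v))

theorem EP_sub_mul {f g f' g' : HeightOneSpectrum (𝓞 K) → ℝ} {A B A' B' : ℝ}
    (hf : ∀ v, |f v| ≤ A) (hg : ∀ v, |g v| ≤ B) (hf' : ∀ v, |f' v| ≤ A') (hg' : ∀ v, |g' v| ≤ B')
    {ε : ℝ} (hε : 0 < ε) : (EP (nm K) ε fun v => (f v - g v) * (f' v - g' v)) =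
      (EP (nm K) ε fun v => f v * f' v) - (EP (nm K) ε fun v => f v * g' v) -
      (EP (nm K) ε fun v => g v * f' v) + EP (nm K) ε fun v => g v * g' v := by
  have hN : NormSys (nm K) := normSys
  have b1 : ∀ v, |f v * f' v| ≤ A * A' := fun v => by
    rw [abs_mul]
    exact mul_le_mul (hf v) (hf' v) (abs_nonneg _) ((abs_nonneg _).trans (hf v))
  have b2 : ∀ v, |(-1) * (f v * g' v)| ≤ A * B' := fun v => by
    rw [abs_mul, abs_neg, abs_one, one_mul, abs_mul]
    exact mul_le_mul (hf v) (hg' v) (abs_nonneg _) ((abs_nonneg _).trans (hf v))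
  have b3 : ∀ v, |(-1) * (g v * f' v)| ≤ B * A' := fun v => by
    rw [abs_mul, abs_neg, abs_one, one_mul, abs_mul]
    exact mul_le_mul (hg v) (hf' v) (abs_nonneg _) ((abs_nonneg _).trans (hg v))
  have b4 : ∀ v, |g v * g' v| ≤ B * B' := fun v => by
    rw [abs_mul]
    exact mul_le_mul (hg v) (hg' v) (abs_nonneg _) ((abs_nonneg _).trans (hg v))
  have e : (fun v => (f v - g v) * (f' v - g' v)) = fun v => (f v * f' v + (-1) * (f v * g' v)) +
      ((-1) * (g v * f' v) + g v * g' v) := by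
    funext v
    ring
  rw [e, EP_add hN hε (fun v => (abs_add_le _ _).trans (add_le_add (b1 v) (b2 v)))
    (fun v => (abs_add_le _ _).trans (add_le_add (b3 v) (b4 v))), EP_add hN hε b1 b2,
    EP_add hN hε b3 b4, EP_const_mul, EP_const_mul]
  ring

/-- second moments of the differences -/
theorem fw_second (σ : HeightOneSpectrum (𝓞 K) → GK K) (hσ : ∀ v, IsFrob v (σ v)) (τ τ' : ℝ)
    [Decidable (τ = τ')] [Decidable (τ = -τ')] :
    Tendsto (fun ε : ℝ => (EP (nm K) ε fun v => fw K F σ τ v * fw K F' σ τ' v) / lam ε) (𝓝[>] 0)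
      (𝓝 (((if τ = τ' then 1 else 0) + (if τ = -τ' then 1 else 0)) / 2 *
        ((nfac K F F' : ℝ) - 1))) := by
  have h1 := fz_second (F := F) (F' := F') σ hσ τ τ'
  have h2 := fz_second (F := F) (F' := K) σ hσ τ τ'
  have h3 := fz_second (F := K) (F' := F') σ hσ τ τ'
  have h4 := fz_second (F := K) (F' := K) σ hσ τ τ'
  rw [nfac_right] at h2
  rw [nfac_left] at h3 h4
  have h5 := ((h1.sub h2).sub h3).add h4
  have e : ((if τ = τ' then 1 else 0) + (if τ = -τ' then 1 else 0)) / 2 * (nfac K F F' : ℝ) -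
      ((if τ = τ' then 1 else 0) + (if τ = -τ' then 1 else 0)) / 2 * ((1 : ℕ) : ℝ) -
      ((if τ = τ' then 1 else 0) + (if τ = -τ' then 1 else 0)) / 2 * ((1 : ℕ) : ℝ) +
      ((if τ = τ' then 1 else 0) + (if τ = -τ' then 1 else 0)) / 2 * ((1 : ℕ) : ℝ) =
      ((if τ = τ' then 1 else 0) + (if τ = -τ' then 1 else 0)) / 2 *
        ((nfac K F F' : ℝ) - 1) := by
    push_cast
    ring
  rw [e] at h5
  refine h5.congr' ?_
  filter_upwards [self_mem_nhdsWithin] with ε hε
  have e2 := EP_sub_mul (K := K) (f := fz K F σ τ) (g := fz K K σ τ) (f' := fz K F' σ τ')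
    (g' := fz K K σ τ') (abs_fz σ τ) (abs_fz σ τ) (abs_fz σ τ') (abs_fz σ τ') hε
  have e3 : (EP (nm K) ε fun v => fw K F σ τ v * fw K F' σ τ' v) =
      EP (nm K) ε fun v => (fz K F σ τ v - fz K K σ τ v) * (fz K F' σ τ' v - fz K K σ τ' v) := rfl
  rw [e3, e2]
  ring

/-- the kernel of the action -/
theorem fixn_ker {g : GK K} (hg : g ∈ (act K F).ker) : fixn K F g = Module.finrank K F := by
  have h2 : Nat.card (F →ₐ[K] AlgebraicClosure K) = Module.finrank K F := by
    rw [Nat.card_eq_fintype_card]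
    exact AlgHom.card K F (AlgebraicClosure K)
  rw [← h2]
  unfold fixn
  refine Nat.card_congr (Equiv.subtypeUnivEquiv fun i => ?_)
  rw [(MonoidHom.mem_ker).1 hg]
  rfl

/-- **The case of equality.** -/
theorem equality_case {R : HeightOneSpectrum (𝓞 K) → ℝ} (hR2 : ∀ v, |R v| ≤ 2) {C : ℝ}
    (hR : ∀ᶠ ε : ℝ in 𝓝[>] 0, (EP (nm K) ε fun v => R v ^ 2) ≤ Real.log (1 / ε) + C)
    (σ : HeightOneSpectrum (𝓞 K) → GK K) (hσ : ∀ v, IsFrob v (σ v)) {m : ℤ}
    (hm : Tendsto (fun ε : ℝ => (EP (nm K) ε fun v => R v * fw K F σ 0 v) / lam ε) (𝓝[>] 0)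
      (𝓝 (-(m : ℝ)))) (h2 : 2 ≤ nfac K F F)
    (hn : 4 * (nfac K F F - 1 : ℤ) < ((Module.finrank K F : ℤ) - 1) ^ 2) :
    m ^ 2 ≠ (nfac K F F : ℤ) - 1 := by
  classical
  intro hmr
  have hN : NormSys (nm K) := normSys
  set U := (act K F).ker with hUdef
  have hU : IsOpen (U : Set (GK K)) := ker_act_open K F
  have hfin : Finite (GK K ⧸ U) := Subgroup.quotient_finite_of_isOpen _ hU
  set ρ : ℝ := (nfac K F F : ℝ) - 1 with hρ
  set n : ℝ := (Module.finrank K F : ℝ) with hn'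
  have h2' : (2 : ℝ) ≤ (nfac K F F : ℝ) := by exact_mod_cast h2
  have hρ1 : 1 ≤ ρ := by rw [hρ]; linarith
  have hmρ : (m : ℝ) ^ 2 = ρ := by
    have : ((m ^ 2 : ℤ) : ℝ) = (((nfac K F F : ℤ) - 1 : ℤ) : ℝ) := by rw [hmr]
    push_cast at this
    rw [this]
  have hnn : 4 * ρ < (n - 1) ^ 2 := by
    have : ((4 * ((nfac K F F : ℤ) - 1) : ℤ) : ℝ) <
      ((((Module.finrank K F : ℤ) - 1) ^ 2 : ℤ) : ℝ) := by exact_mod_cast hn
    push_cast at this
    exact this
  have hn1 : 1 ≤ n := by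
    rw [hn']
    exact_mod_cast Module.finrank_pos (R := K) (M := F)
  set c : ℝ := (m : ℝ) / ρ with hc
  have hρ0 : 0 < ρ := by linarith
  -- the primes in the kernel
  set g : GK K ⧸ U → ℂ := fun q => if q = 1 then 1 else 0 with hg
  have hgc : ∀ a y, g (y * a * y⁻¹) = g a := by
    intro a y
    rw [hg]
    simp only
    have : y * a * y⁻¹ = 1 ↔ a = 1 := by
      constructor
      · intro h1
        exact mul_eq_left.1 (mul_inv_eq_one.1 h1)
      · intro h1
        rw [h1]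
        group
    simp only [this]
  have hgav : avC U g = (((Nat.card (GK K ⧸ U) : ℝ)⁻¹ : ℝ) : ℂ) := by
    let _ : Fintype (GK K ⧸ U) := Fintype.ofFinite _
    unfold avC
    rw [finsum_eq_sum_of_fintype, hg, Finset.sum_eq_single (1 : GK K ⧸ U)
      (fun q _ hq => if_neg hq) (fun h => absurd (Finset.mem_univ _) h), if_pos rfl, mul_one]
    push_cast
    rfl
  have hsplit := cheb_edge U hU g hgc _ hgav σ hσ 0
  rw [if_pos rfl] at hsplit
  have hI : Tendsto (fun ε : ℝ => (EP (nm K) ε fun v => if σ v ∈ U then (1 : ℝ) else 0) / lam ε)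
      (𝓝[>] 0) (𝓝 ((Nat.card (GK K ⧸ U) : ℝ)⁻¹)) := by
    refine hsplit.congr fun ε => ?_
    congr 2
    funext v
    have h1 : ((nm K v : ℕ) : ℂ) ^ (-(((0 : ℝ) : ℂ) * I)) = 1 := by simp
    rw [h1, mul_one, hg]
    simp only
    by_cases h2 : σ v ∈ U
    · rw [if_pos ((QuotientGroup.eq_one_iff _).2 h2), if_pos h2, Complex.one_re]
    · rw [if_neg (fun h3 => h2 ((QuotientGroup.eq_one_iff _).1 h3)), if_neg h2, Complex.zero_re]
  have hG := fw_second (F := F) (F' := F) σ hσ 0 0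
  rw [if_pos rfl, if_pos (by norm_num)] at hG
  have e00 : ((1 : ℝ) + 1) / 2 * ((nfac K F F : ℝ) - 1) = ρ := by rw [hρ]; ring
  rw [e00] at hG
  have hL : Tendsto (fun ε : ℝ => Real.log (1 / ε) / lam ε + |C| / lam ε +
      2 * c * ((EP (nm K) ε fun v => R v * fw K F σ 0 v) / lam ε) +
      c ^ 2 * ((EP (nm K) ε fun v => fw K F σ 0 v * fw K F σ 0 v) / lam ε)) (𝓝[>] 0)
      (𝓝 (1 + 0 + 2 * c * (-(m : ℝ)) + c ^ 2 * ρ)) :=
    ((log_ratio.add (tendsto_const_nhds.div_atTop lam_tendsto)).add (hm.const_mul _)).add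
      (hG.const_mul _)
  have e0 : (1 : ℝ) + 0 + 2 * c * (-(m : ℝ)) + c ^ 2 * ρ = 0 := by
    have e1 : (1 : ℝ) + 0 + 2 * c * (-(m : ℝ)) + c ^ 2 * ρ = 1 - (m : ℝ) ^ 2 / ρ := by
      rw [hc]
      field_simp
      ring
    rw [e1, hmρ, div_self hρ0.ne', sub_self]
  rw [e0] at hL
  set δ : ℝ := |c| * (n - 1) - 2 with hδ
  have hδ0 : 0 < δ := by
    have h5 : (|c| * (n - 1)) ^ 2 * ρ = (n - 1) ^ 2 := by
      rw [mul_pow, sq_abs, hc, div_pow, hmρ]
      field_simp
    have h6 : 4 < (|c| * (n - 1)) ^ 2 := by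
      by_contra h7
      push Not at h7
      have := mul_le_mul_of_nonneg_right h7 hρ0.le
      linarith
    have h7 : 0 ≤ |c| * (n - 1) := mul_nonneg (abs_nonneg _) (by linarith)
    nlinarith
  have hpos : (0 : ℝ) < Nat.card (GK K ⧸ U) := by exact_mod_cast Nat.card_pos
  have hle : δ ^ 2 * (Nat.card (GK K ⧸ U) : ℝ)⁻¹ ≤ 0 := by
    refine le_of_tendsto_of_tendsto (hI.const_mul (δ ^ 2)) hL ?_
    filter_upwards [hR, lam_tendsto.eventually_gt_atTop 0, self_mem_nhdsWithin] with ε h4 h2 h3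
    have hε : (0 : ℝ) < ε := h3
    set D : ℝ := (Module.finrank ℚ F : ℝ) + Module.finrank ℚ K with hD
    have hD0 : 0 ≤ D := by positivity
    have hwb : ∀ v, |fw K F σ 0 v| ≤ D := fun v => abs_fw σ 0 v
    have hpt : ∀ v, (δ ^ 2 * (if σ v ∈ U then (1 : ℝ) else 0)) ≤
        R v ^ 2 + ((2 * c) * (R v * fw K F σ 0 v) + c ^ 2 * (fw K F σ 0 v * fw K F σ 0 v)) := by
      intro v
      have e3 : R v ^ 2 + ((2 * c) * (R v * fw K F σ 0 v) +
          c ^ 2 * (fw K F σ 0 v * fw K F σ 0 v)) = (R v + c * fw K F σ 0 v) ^ 2 := by ring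
      rw [e3]
      split_ifs with h5
      · rw [mul_one]
        have h6 : fw K F σ 0 v = n - 1 := by
          have h8 : cz 0 v = 1 := by
            unfold cz zz
            simp
          unfold fw
          rw [fz_self]
          unfold fz
          rw [fixn_ker h5, h8, mul_one]
        have h9 : δ ≤ |R v + c * fw K F σ 0 v| := by
          have h10 : |c * fw K F σ 0 v| = |c| * (n - 1) := by
            rw [abs_mul, h6, abs_of_nonneg (by linarith : (0 : ℝ) ≤ n - 1)]
          have h11 : |c * fw K F σ 0 v| ≤ |R v + c * fw K F σ 0 v| + |R v| := by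
            have : c * fw K F σ 0 v = (R v + c * fw K F σ 0 v) - R v := by ring
            calc |c * fw K F σ 0 v| = |(R v + c * fw K F σ 0 v) - R v| := by rw [← this]
              _ ≤ _ := abs_sub _ _
          have h12 := hR2 v
          rw [hδ]
          linarith
        calc δ ^ 2 ≤ |R v + c * fw K F σ 0 v| ^ 2 := pow_le_pow_left₀ hδ0.le h9 2
          _ = _ := sq_abs _
      · rw [mul_zero]
        exact sq_nonneg _
    have b1 : ∀ v, |R v ^ 2| ≤ 4 := fun v => by
      rw [abs_pow]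
      calc |R v| ^ 2 ≤ 2 ^ 2 := pow_le_pow_left₀ (abs_nonneg _) (hR2 v) 2
        _ = 4 := by norm_num
    have b2 : ∀ v, |(2 * c) * (R v * fw K F σ 0 v)| ≤ |2 * c| * (2 * D) := fun v => by
      rw [abs_mul, abs_mul (R v)]
      exact mul_le_mul_of_nonneg_left (mul_le_mul (hR2 v) (hwb v) (abs_nonneg _) (by norm_num))
        (abs_nonneg _)
    have b3 : ∀ v, |c ^ 2 * (fw K F σ 0 v * fw K F σ 0 v)| ≤ c ^ 2 * (D * D) := fun v => by
      rw [abs_mul, abs_mul (fw K F σ 0 v), abs_of_nonneg (sq_nonneg c)]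
      exact mul_le_mul_of_nonneg_left (mul_le_mul (hwb v) (hwb v) (abs_nonneg _) hD0)
        (sq_nonneg _)
    have h5 := EP_mono (B := δ ^ 2) (B' := 4 + (|2 * c| * (2 * D) + c ^ 2 * (D * D)))
      (φ := fun v => δ ^ 2 * (if σ v ∈ U then (1 : ℝ) else 0))
      (ψ := fun v => R v ^ 2 + ((2 * c) * (R v * fw K F σ 0 v) +
          c ^ 2 * (fw K F σ 0 v * fw K F σ 0 v))) (fun v => by
        split_ifs
        · rw [mul_one, abs_of_nonneg (sq_nonneg δ)]
        · rw [mul_zero, abs_zero]; exact sq_nonneg δ)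
      (fun v => (abs_add_le _ _).trans (add_le_add (b1 v)
        ((abs_add_le _ _).trans (add_le_add (b2 v) (b3 v))))) hpt hε
    rw [EP_add hN hε b1 (fun v => (abs_add_le _ _).trans (add_le_add (b2 v) (b3 v))),
      EP_add hN hε b2 b3, EP_const_mul, EP_const_mul, EP_const_mul] at h5
    have h6 : (EP (nm K) ε fun v => R v ^ 2) ≤ Real.log (1 / ε) + |C| := by
      have := le_abs_self C
      linarith
    rw [← mul_div_assoc, div_le_iff₀ h2]
    have e4 : (Real.log (1 / ε) / lam ε + |C| / lam ε +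
      2 * c * ((EP (nm K) ε fun v => R v * fw K F σ 0 v) / lam ε) +
      c ^ 2 * ((EP (nm K) ε fun v => fw K F σ 0 v * fw K F σ 0 v) / lam ε)) * lam ε =
      Real.log (1 / ε) + |C| + (2 * c * (EP (nm K) ε fun v => R v * fw K F σ 0 v) +
        c ^ 2 * (EP (nm K) ε fun v => fw K F σ 0 v * fw K F σ 0 v)) := by
      field_simp
      ring
    rw [e4]
    linarith
  have h5 : 0 < δ ^ 2 * (Nat.card (GK K ⧸ U) : ℝ)⁻¹ := by positivity
  linarith

end

end Pool.Agent.R433.NF
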