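import Pool.Agent.R433.NF.Combo
import Pool.Agent.W353.NF.EC

/-! Orders of `L(E / F, s)` over number fields. -/

set_option autoImplicit false

namespace Pool.Agent.R433.NF

open Complex Filter Topology ComplexConjugate NumberField IsDedekindDomain Asymptotics
  Pool.Agent.W401.Cheb Pool.Agent.W540.BE Pool.Agent.W353.L1 Pool.Agent.W353.NF
open Pool.Agent.H341R2 (lam lam_tendsto)
open Pool.Agent.H341R2.EC (IsMinAt)
open Pool.Agent.W353.AB (LE)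
open Pool.Agent.Y722.EP (log_ratio rE abs_rE)
open Pool.Agent.R433.AT (MeanOne EP_cauchy)
open scoped TensorProduct

section
variable {K : Type} [Field K] [NumberField K]

/-- conclusions for integers -/
theorem int_concl {M N D : ℤ} {τ A : ℝ} [Decidable (τ = -τ)]
    (hA : A = (1 + (if τ = -τ then 1 else 0)) / 2 * (N : ℝ)) (h1 : (M : ℝ) ^ 2 ≤ A)
    (h2 : 0 < A → (M : ℝ) ^ 2 = A → (D : ℝ) ^ 2 ≤ 4 * A) :
    M ^ 2 ≤ N ∧ (0 < N → 4 * N < D ^ 2 → M ^ 2 < N) ∧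
      (τ ≠ 0 → 2 * M ^ 2 ≤ N ∧ (0 < N → 2 * N < D ^ 2 → 2 * M ^ 2 < N)) := by
  by_cases hτ : τ = 0
  · have e : A = N := by
      rw [hA, if_pos (by rw [hτ]; norm_num)]
      ring
    rw [e] at h1 h2
    refine ⟨by exact_mod_cast h1, fun hN hD => ?_, fun h => absurd hτ h⟩
    refine lt_of_le_of_ne (by exact_mod_cast h1) fun h => ?_
    have h3 := h2 (by exact_mod_cast hN) (by exact_mod_cast h)
    have h4 : D ^ 2 ≤ 4 * N := by exact_mod_cast h3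
    omega
  · have e : A = N / 2 := by
      rw [hA, if_neg (fun h => hτ (by linarith))]
      ring
    rw [e] at h1 h2
    have h3 : 2 * M ^ 2 ≤ N := by
      have : 2 * (M : ℝ) ^ 2 ≤ N := by linarith
      exact_mod_cast this
    have h0 : 0 ≤ M ^ 2 := sq_nonneg M
    refine ⟨by omega, fun hN _ => by omega, fun _ => ⟨h3, fun hN hD => ?_⟩⟩
    refine lt_of_le_of_ne h3 fun h => ?_
    have hN' : (0 : ℝ) < (N : ℝ) := by exact_mod_cast hN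
    have h5 : 2 * (M : ℝ) ^ 2 = N := by exact_mod_cast h
    have h4 := h2 (by linarith) (by linarith)
    have h6 : D ^ 2 ≤ 2 * N := by
      have : (D : ℝ) ^ 2 ≤ 2 * N := by linarith
      exact_mod_cast this
    omega

/-- mean values from orders -/
theorem mean_order {a b : ℤ} (hΔ : 4 * a ^ 3 + 27 * b ^ 2 ≠ 0) {F : Type} [Field F]
    [NumberField F] [Algebra K F]
    (V : HeightOneSpectrum (𝓞 F) → WeierstrassCurve (𝓞 F))
    (hV : ∀ v, IsMinAt (EK F a b) v (V v)) (τ : ℝ)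
    (σ : HeightOneSpectrum (𝓞 K) → GK K) (hσ : ∀ v, IsFrob v (σ v)) {Λ : ℂ → ℂ}
    (h1 : MeromorphicAt Λ (3 / 2 + τ * I))
    (h2 : ∀ᶠ s in 𝓝 ((3 / 2 : ℂ) + τ * I), (3 / 2 : ℝ) < s.re → Λ s = LE V s) {m : ℤ}
    (hm : meromorphicOrderAt Λ (3 / 2 + τ * I) = m) :
    Tendsto (fun ε : ℝ => (EP (nm K) ε fun v => rE a b v * fz K F σ τ v) / lam ε) (𝓝[>] 0)
      (𝓝 (-(m : ℝ))) := by
  obtain ⟨h3, h4⟩ := size_fz hΔ V hV τ σ hσ
  have h5 := lim_order h3 h1 h2 hm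
  have h6 := h4.add h5
  rw [zero_add] at h6
  exact h6.congr fun ε => by ring

/-- the base field -/
theorem mean_order_self {a b : ℤ} (hΔ : 4 * a ^ 3 + 27 * b ^ 2 ≠ 0)
    (V : HeightOneSpectrum (𝓞 K) → WeierstrassCurve (𝓞 K))
    (hV : ∀ v, IsMinAt (EK K a b) v (V v)) (τ : ℝ)
    (σ : HeightOneSpectrum (𝓞 K) → GK K) (hσ : ∀ v, IsFrob v (σ v)) {Λ : ℂ → ℂ}
    (h1 : MeromorphicAt Λ (3 / 2 + τ * I))
    (h2 : ∀ᶠ s in 𝓝 ((3 / 2 : ℂ) + τ * I), (3 / 2 : ℝ) < s.re → Λ s = LE V s) {m : ℤ}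
    (hm : meromorphicOrderAt Λ (3 / 2 + τ * I) = m) :
    Tendsto (fun ε : ℝ => (EP (nm K) ε fun v => rE a b v * fz K K σ τ v) / lam ε) (𝓝[>] 0)
      (𝓝 (-(m : ℝ))) := mean_order hΔ V hV τ σ hσ h1 h2 hm

/-- pairs -/
theorem pair_mean {R : HeightOneSpectrum (𝓞 K) → ℝ} (hR2 : ∀ v, |R v| ≤ 2) {F : Type} [Field F]
    [NumberField F] [Algebra K F] (σ : HeightOneSpectrum (𝓞 K) → GK K) (τ : ℝ) {m m₀ : ℤ}
    (h1 : Tendsto (fun ε : ℝ => (EP (nm K) ε fun v => R v * fz K F σ τ v) / lam ε) (𝓝[>] 0)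
      (𝓝 (-(m : ℝ))))
    (h2 : Tendsto (fun ε : ℝ => (EP (nm K) ε fun v => R v * fz K K σ τ v) / lam ε) (𝓝[>] 0)
      (𝓝 (-(m₀ : ℝ)))) :
    Tendsto (fun ε : ℝ => (EP (nm K) ε fun v => R v * fw K F σ τ v) / lam ε) (𝓝[>] 0)
      (𝓝 (-((m - m₀ : ℤ) : ℝ))) := by
  have hN : NormSys (nm K) := normSys
  have h3 := h1.add (h2.const_mul (-1))
  have e : -(m : ℝ) + -1 * -(m₀ : ℝ) = -((m - m₀ : ℤ) : ℝ) := by
    push_cast
    ring
  rw [e] at h3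
  refine h3.congr' ?_
  filter_upwards [self_mem_nhdsWithin] with ε hε
  have hε' : (0 : ℝ) < ε := hε
  have b1 : ∀ v, |R v * fz K F σ τ v| ≤ 2 * Module.finrank ℚ F := fun v => by
    rw [abs_mul]
    exact mul_le_mul (hR2 v) (abs_fz σ τ v) (abs_nonneg _) (by norm_num)
  have b2 : ∀ v, |(-1) * (R v * fz K K σ τ v)| ≤ 2 * Module.finrank ℚ K := fun v => by
    rw [abs_mul, abs_neg, abs_one, one_mul, abs_mul]
    exact mul_le_mul (hR2 v) (abs_fz σ τ v) (abs_nonneg _) (by norm_num)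
  have e1 : (fun v => R v * fw K F σ τ v) = fun v => R v * fz K F σ τ v +
      (-1) * (R v * fz K K σ τ v) := by
    funext v
    unfold fw
    ring
  rw [e1, EP_add hN hε' b1 b2, EP_const_mul]
  ring

variable {R : HeightOneSpectrum (𝓞 K) → ℝ} (hR2 : ∀ v, |R v| ≤ 2) {C : ℝ}
    (hR : ∀ᶠ ε : ℝ in 𝓝[>] 0, (EP (nm K) ε fun v => R v ^ 2) ≤ Real.log (1 / ε) + C)
    (σ : HeightOneSpectrum (𝓞 K) → GK K) (hσ : ∀ v, IsFrob v (σ v))

include hR2 hR hσ in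
/-- **Pairs of fields.** -/
theorem pair_orders {F : Type} [Field F] [NumberField F] [Algebra K F] (τ : ℝ) {M : ℤ}
    (hm : Tendsto (fun ε : ℝ => (EP (nm K) ε fun v => R v * fw K F σ τ v) / lam ε) (𝓝[>] 0)
      (𝓝 (-(M : ℝ)))) :
    M ^ 2 ≤ (nfac K F F : ℤ) - 1 ∧
    (0 < (nfac K F F : ℤ) - 1 → 4 * ((nfac K F F : ℤ) - 1) < ((Module.finrank K F : ℤ) - 1) ^ 2 →
      M ^ 2 < (nfac K F F : ℤ) - 1) ∧
    (τ ≠ 0 → 2 * M ^ 2 ≤ (nfac K F F : ℤ) - 1 ∧ (0 < (nfac K F F : ℤ) - 1 →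
      2 * ((nfac K F F : ℤ) - 1) < ((Module.finrank K F : ℤ) - 1) ^ 2 →
      2 * M ^ 2 < (nfac K F F : ℤ) - 1)) := by
  classical
  have hA := fw_second (K := K) (F := F) (F' := F) σ hσ τ τ
  rw [if_pos rfl] at hA
  refine int_concl (A := (1 + (if τ = -τ then 1 else 0)) / 2 * ((nfac K F F : ℝ) - 1)) (by
    push_cast
    rfl) (abs_bound hR2 hR (abs_fw σ τ) hm hA) fun hA0 hMA => ?_
  have h := pair_strict hR2 hR σ hσ τ hm hA hA0 hMA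
  push_cast
  exact h

include hR2 hR hσ in
/-- **Pairs of fields, all heights.** -/
theorem pair_heights {F : Type} [Field F] [NumberField F] [Algebra K F] (S : Finset ℝ) {M : ℝ → ℤ}
    (hm : ∀ τ ∈ S, Tendsto (fun ε : ℝ => (EP (nm K) ε fun v => R v * fw K F σ τ v) / lam ε)
      (𝓝[>] 0) (𝓝 (-(M τ : ℝ)))) :
    ∑ τ ∈ S, M τ ^ 2 ≤ (nfac K F F : ℤ) - 1 := by
  classical
  have h := heights_sum hR2 hR (w := fun τ v => fw K F σ τ v) (fun τ v => abs_fw σ τ v)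
    (A := (nfac K F F : ℝ) - 1) (fun τ τ' => fw_second σ hσ τ τ') S (M := fun τ => (M τ : ℝ)) hm
  have h2 : ((∑ τ ∈ S, M τ ^ 2 : ℤ) : ℝ) ≤ (((nfac K F F : ℤ) - 1 : ℤ) : ℝ) := by
    push_cast
    exact h
  exact_mod_cast h2

variable {κ : Type} [Fintype κ] {F : κ → Type} [∀ k, Field (F k)] [∀ k, NumberField (F k)]
  [∀ k, Algebra K (F k)]

include hR2 hR hσ in
/-- **Combinations of fields.** -/
theorem combo_orders (d : κ → ℤ) (τ : ℝ) {m : κ → ℤ}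
    (hm : ∀ k, Tendsto (fun ε : ℝ => (EP (nm K) ε fun v => R v * fz K (F k) σ τ v) / lam ε)
      (𝓝[>] 0) (𝓝 (-(m k : ℝ)))) :
    (∑ k, d k * m k) ^ 2 ≤ ∑ k, ∑ l, d k * d l * (nfac K (F k) (F l) : ℤ) ∧
    (0 < ∑ k, ∑ l, d k * d l * (nfac K (F k) (F l) : ℤ) →
      4 * (∑ k, ∑ l, d k * d l * (nfac K (F k) (F l) : ℤ)) <
        (∑ k, d k * (Module.finrank K (F k) : ℤ)) ^ 2 →
      (∑ k, d k * m k) ^ 2 < ∑ k, ∑ l, d k * d l * (nfac K (F k) (F l) : ℤ)) ∧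
    (τ ≠ 0 → 2 * (∑ k, d k * m k) ^ 2 ≤ ∑ k, ∑ l, d k * d l * (nfac K (F k) (F l) : ℤ) ∧
      (0 < ∑ k, ∑ l, d k * d l * (nfac K (F k) (F l) : ℤ) →
      2 * (∑ k, ∑ l, d k * d l * (nfac K (F k) (F l) : ℤ)) <
        (∑ k, d k * (Module.finrank K (F k) : ℤ)) ^ 2 →
      2 * (∑ k, d k * m k) ^ 2 < ∑ k, ∑ l, d k * d l * (nfac K (F k) (F l) : ℤ))) := by
  classical
  have hA := vs_second (K := K) (F := F) (fun k => (d k : ℝ)) σ hσ τ τ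
  rw [if_pos rfl] at hA
  have hmean := vs_mean hR2 (fun k => (d k : ℝ)) σ τ hm
  have e1 : (∑ k, (d k : ℝ) * (m k : ℝ)) = ((∑ k, d k * m k : ℤ) : ℝ) := by push_cast; rfl
  rw [e1] at hmean
  refine int_concl (A := (1 + (if τ = -τ then 1 else 0)) / 2 *
    ∑ k, ∑ l, (d k : ℝ) * d l * (nfac K (F k) (F l) : ℝ)) (by
    push_cast
    rfl) (abs_bound hR2 hR (abs_vs _ σ τ) hmean hA) fun hA0 hMA => ?_
  have h := combo_strict hR2 hR σ hσ (fun k => (d k : ℝ)) τ hmean hA hA0 hMA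
  push_cast
  exact h

include hR2 hR hσ in
/-- **Combinations of fields, all heights.** -/
theorem combo_heights (d : κ → ℤ) (S : Finset ℝ) {m : ℝ → κ → ℤ}
    (hm : ∀ τ ∈ S, ∀ k, Tendsto (fun ε : ℝ => (EP (nm K) ε fun v =>
      R v * fz K (F k) σ τ v) / lam ε) (𝓝[>] 0) (𝓝 (-(m τ k : ℝ)))) :
    ∑ τ ∈ S, (∑ k, d k * m τ k) ^ 2 ≤ ∑ k, ∑ l, d k * d l * (nfac K (F k) (F l) : ℤ) := by
  classical
  have h := heights_sum hR2 hR (w := fun τ v => vs F (fun k => (d k : ℝ)) σ τ v)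
    (fun τ v => abs_vs _ σ τ v)
    (A := ∑ k, ∑ l, (d k : ℝ) * d l * (nfac K (F k) (F l) : ℝ))
    (fun τ τ' => vs_second _ σ hσ τ τ') S (M := fun τ => ((∑ k, d k * m τ k : ℤ) : ℝ))
    (fun τ hτ => by
      have := vs_mean hR2 (fun k => (d k : ℝ)) σ τ (hm τ hτ)
      have e1 : (∑ k, (d k : ℝ) * (m τ k : ℝ)) = ((∑ k, d k * m τ k : ℤ) : ℝ) := by
        push_cast; rfl
      rw [e1] at this
      exact this)
  have h2 : ((∑ τ ∈ S, (∑ k, d k * m τ k) ^ 2 : ℤ) : ℝ) ≤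
      ((∑ k, ∑ l, d k * d l * (nfac K (F k) (F l) : ℤ) : ℤ) : ℝ) := by
    push_cast
    simp only [Int.cast_sum, Int.cast_mul] at h
    exact h
  exact_mod_cast h2

include hR2 hR hσ in
/-- the base field -/
theorem self_orders (τ : ℝ) {m : ℤ}
    (hm : Tendsto (fun ε : ℝ => (EP (nm K) ε fun v => R v * fz K K σ τ v) / lam ε) (𝓝[>] 0)
      (𝓝 (-(m : ℝ)))) : m ^ 2 ≤ 1 ∧ (τ ≠ 0 → m = 0) := by
  classical
  obtain ⟨h1, -, h3⟩ := combo_orders (κ := Unit) (F := fun _ => K) hR2 hR σ hσ (fun _ => 1) τ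
    (m := fun _ => m) (fun _ => hm)
  have e1 : ∑ _k : Unit, (1 : ℤ) * m = m := by simp
  have e2 : ∑ _k : Unit, ∑ _l : Unit, (1 : ℤ) * 1 * (nfac K K K : ℤ) = 1 := by
    rw [nfac_left]
    simp
  rw [e1, e2] at h1
  rw [e1, e2] at h3
  refine ⟨h1, fun hτ => ?_⟩
  have h4 := (h3 hτ).1
  have h5 : m ^ 2 = 0 := by
    have := sq_nonneg m
    omega
  exact pow_eq_zero_iff (two_ne_zero) |>.1 h5

end

end Pool.Agent.R433.NF
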