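import Pool.Agent.R433.NF.Link

/-! Sizes and second moments over number fields. -/

set_option autoImplicit false

namespace Pool.Agent.R433.NF

open Complex Filter Topology ComplexConjugate NumberField IsDedekindDomain Asymptotics
  Pool.Agent.W401.Cheb Pool.Agent.W540.BE Pool.Agent.W353.L1 Pool.Agent.W353.NF
open Pool.Agent.H341R2 (lam lam_tendsto sysK)
open Pool.Agent.Y722.EP (log_ratio points trace rE abs_rE rE_eq trace_kerPrime)
open Pool.Agent.R433.AT (MeanOne EP_cauchy Wab Wab_disc rE_eventually)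
open Pool.Agent.W353.TP (HX sysH push push_abs_le qh qh_abs qh_eq res LL LL_tendsto E_H
  bdd_isLittleO lam0_sub inum)
open Pool.Agent.W353.AB (Sy vq norm_vq syE tEH csH LE gram)
open Pool.Agent.H921R2.TatePole (kerPrime)
open Pool.Agent.H341R2.EC (csum short aff_eq_short short_eq IsModel IsMinAt)
open scoped TensorProduct

theorem LL_ratio : Tendsto (fun ε => LL ε / lam ε) (𝓝[>] 0) (𝓝 1) := log_ratio

theorem lim_of_littleO {f : ℝ → ℝ} {c : ℝ} (h : (fun ε => f ε - c * LL ε) =o[𝓝[>] 0] LL) :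
    Tendsto (fun ε => f ε / lam ε) (𝓝[>] 0) (𝓝 c) := by
  have h1 := (h.tendsto_div_nhds_zero.add_const c).mul LL_ratio
  rw [zero_add, mul_one] at h1
  refine h1.congr' ?_
  filter_upwards [LL_tendsto.eventually_gt_atTop 0, lam_tendsto.eventually_gt_atTop 0] with ε h2 h3
  field_simp
  ring

section
variable {K : Type} [Field K] [NumberField K]

theorem EP_lam_bdd {f : HeightOneSpectrum (𝓞 K) → ℝ} {B : ℝ} (hf : ∀ v, |f v| ≤ B) :
    ∀ᶠ ε : ℝ in 𝓝[>] 0, |EP (nm K) ε f / lam ε| ≤ 2 * |B| := by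
  filter_upwards [(EP_one K).eventually_lt_const (by norm_num : (1 : ℝ) < 2),
    lam_tendsto.eventually_gt_atTop 0, self_mem_nhdsWithin] with ε h1 h2 h3
  have hε : (0 : ℝ) < ε := h3
  rw [div_lt_iff₀ h2] at h1
  have hf' : ∀ v, |f v| ≤ |B| := fun v => (hf v).trans (le_abs_self B)
  have h4 := EP_abs_le (F := K) (φ := f) (ψ := fun _ => |B| * 1) (B := |B|)
    (fun v => by rw [mul_one, abs_abs]) (fun v => by rw [mul_one]; exact hf' v) hε
  rw [EP_const_mul] at h4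
  rw [abs_div, abs_of_pos h2, div_le_iff₀ h2]
  refine h4.trans ?_
  have := mul_le_mul_of_nonneg_left h1.le (abs_nonneg B)
  linarith

theorem compare {f : HeightOneSpectrum (𝓞 K) → ℝ} {B : ℝ} (hf : ∀ v, |f v| ≤ B) {X : ℝ → ℝ}
    (h : (fun ε => X ε * LL ε - EP (nm K) ε f) =o[𝓝[>] 0] LL) :
    Tendsto (fun ε => EP (nm K) ε f / lam ε - X ε) (𝓝[>] 0) (𝓝 0) := by
  have h1 : Tendsto (fun ε => lam ε / LL ε) (𝓝[>] 0) (𝓝 1) := by
    have := LL_ratio.inv₀ one_ne_zero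
    rw [inv_one] at this
    exact this.congr fun ε => inv_div _ _
  have h2 : Tendsto (fun ε => (1 - lam ε / LL ε) * (EP (nm K) ε f / lam ε)) (𝓝[>] 0) (𝓝 0) := by
    have h3 : Tendsto (fun ε => 1 - lam ε / LL ε) (𝓝[>] 0) (𝓝 0) := by
      have := h1.const_sub 1
      rwa [sub_self] at this
    have h4 : Tendsto (fun ε => |1 - lam ε / LL ε| * (2 * |B|)) (𝓝[>] 0) (𝓝 0) := by
      have := h3.abs.mul_const (2 * |B|)
      rwa [abs_zero, zero_mul] at this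
    refine squeeze_zero_norm' ?_ h4
    filter_upwards [EP_lam_bdd hf] with ε h5
    rw [Real.norm_eq_abs, abs_mul]
    exact mul_le_mul_of_nonneg_left h5 (abs_nonneg _)
  have h5 := h2.sub h.tendsto_div_nhds_zero
  rw [sub_zero] at h5
  refine h5.congr' ?_
  filter_upwards [LL_tendsto.eventually_gt_atTop 0, lam_tendsto.eventually_gt_atTop 0] with ε h6 h7
  field_simp
  ring

variable {F F' : Type} [Field F] [NumberField F] [Algebra K F] [Field F'] [NumberField F']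
  [Algebra K F']

/-- the weighted number of fixed embeddings -/
noncomputable def fz (K F : Type) [Field K] [NumberField K] [Field F] [NumberField F]
    [Algebra K F] (σ : HeightOneSpectrum (𝓞 K) → GK K) (τ : ℝ)
    (v : HeightOneSpectrum (𝓞 K)) : ℝ := (fixn K F (σ v) : ℝ) * cz τ v

theorem abs_fz (σ : HeightOneSpectrum (𝓞 K) → GK K) (τ : ℝ) (v : HeightOneSpectrum (𝓞 K)) :
    |fz K F σ τ v| ≤ Module.finrank ℚ F := by
  unfold fz
  rw [abs_mul, abs_of_nonneg (Nat.cast_nonneg _)]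
  calc (fixn K F (σ v) : ℝ) * |cz τ v| ≤ Module.finrank ℚ F * 1 :=
        mul_le_mul (fixn_le _) (abs_cz _ _) (abs_nonneg _) (by positivity)
    _ = _ := mul_one _

/-- the curve over the base field -/
noncomputable def EK (K : Type) [Field K] (a b : ℤ) : WeierstrassCurve K :=
  ⟨0, 0, 0, (a : K), (b : K)⟩

theorem EK_map (a b : ℤ) : (Wab K a b).map (algebraMap (𝓞 K) K) = EK K a b := by
  unfold Wab EK
  ext <;> simp [WeierstrassCurve.map]

theorem EK_base (a b : ℤ) : (EK K a b).map (algebraMap K F) = EK F a b := by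
  unfold EK
  ext <;> simp [WeierstrassCurve.map]

/-- **Sizes of `L(E/F)` over the primes of `K`.** -/
theorem size_fz {a b : ℤ} (hΔ : 4 * a ^ 3 + 27 * b ^ 2 ≠ 0)
    (M : HeightOneSpectrum (𝓞 F) → WeierstrassCurve (𝓞 F))
    (hM : ∀ v, IsMinAt (EK F a b) v (M v)) (τ : ℝ)
    (σ : HeightOneSpectrum (𝓞 K) → GK K) (hσ : ∀ v, IsFrob v (σ v)) :
    (∀ᶠ ε : ℝ in 𝓝[>] 0, LE M (3 / 2 + τ * I + ε) ≠ 0) ∧
    Tendsto (fun ε : ℝ => (EP (nm K) ε fun v => rE a b v * fz K F σ τ v) / lam ε -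
      Real.log ‖LE M (3 / 2 + τ * I + ε)‖ / Real.log (1 / ε)) (𝓝[>] 0) (𝓝 0) := by
  have hP : ((PP K a b : 𝓞 K) : K) = (((1 : 𝓞 K) : 𝓞 K) : K) ^ 4 * (EK K a b).c₄ := by
    rw [← EK_map, WeierstrassCurve.map_c₄]
    simp [PP]
  have hQ : ((QQ K a b : 𝓞 K) : K) = (((1 : 𝓞 K) : 𝓞 K) : K) ^ 6 * (EK K a b).c₆ := by
    rw [← EK_map, WeierstrassCurve.map_c₆]
    simp [QQ]
  obtain ⟨h1, h2⟩ := size_EF (F := F) (EK K a b) (l := 1) one_ne_zero hP hQ (disc_ne hΔ) M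
    (by rw [EK_base]; exact hM) τ
  refine ⟨h1, ?_⟩
  have h3 := size_fix (syE (PP K a b) (QQ K a b)) (syE_real _ _) σ hσ h2
  obtain ⟨S, hS⟩ := TT_cofinite (K := K) hΔ
  have hT : ∀ x : HX K, |W353.NF.TT (syE (PP K a b) (QQ K a b)) x| ≤ 2 := by
    intro x
    refine (abs_TT _ x).trans (le_of_eq ?_)
    exact syE_b _ _
  obtain ⟨C, hC⟩ := EH_to_EP (K := K) (T := W353.NF.TT (syE (PP K a b) (QQ K a b)))
    (r := rE a b) (Ψ := fz K F σ τ) hT (fun v => abs_rE _ _ v) (abs_fz σ τ) S hS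
  have h4 : (fun ε => (sysH K).E ε (fun x => W353.NF.TT (syE (PP K a b) (QQ K a b)) x *
      fz K F σ τ (vx x)) - EP (nm K) ε (fun v => rE a b v * fz K F σ τ v)) =o[𝓝[>] 0] LL :=
    bdd_isLittleO ⟨C, by
      filter_upwards [self_mem_nhdsWithin] with ε hε
      exact hC ε hε⟩
  refine compare (B := 2 * Module.finrank ℚ F) (fun v => ?_) ?_
  · rw [abs_mul]
    exact mul_le_mul (abs_rE a b v) (abs_fz σ τ v) (abs_nonneg _) (by norm_num)
  · unfold SzH at h3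
    refine (h3.add h4).congr_left fun ε => ?_
    have e : (sysH K).E ε (fun x => W353.NF.TT (syE (PP K a b) (QQ K a b)) x *
        ((fixn K F (σ (vx x)) : ℝ) * cz τ (vx x))) =
        (sysH K).E ε (fun x => W353.NF.TT (syE (PP K a b) (QQ K a b)) x *
          fz K F σ τ (vx x)) := rfl
    rw [e]
    ring

/-- the number of the factors of a tensor product of number fields -/
noncomputable def nfac (K F F' : Type) [Field K] [Field F] [Algebra K F] [Field F'] [Algebra K F'] :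
    ℕ := Nat.card (MaximalSpectrum (F ⊗[K] F'))

theorem inum_one : inum K F F' (((1 : 𝓞 F)) : F) (((1 : 𝓞 F')) : F') = nfac K F F' := by
  unfold inum nfac
  refine Nat.card_congr (Equiv.subtypeUnivEquiv fun m => ?_)
  have e : ((((1 : 𝓞 F)) : F) ⊗ₜ[K] (((1 : 𝓞 F')) : F')) = 1 := rfl
  rw [e, map_one]
  exact IsSquare.one

theorem cz_eq (τ : ℝ) (x : HX K) : cz τ (vx x) = ((((x.1 : ℕ) : ℂ)) ^ ((τ : ℂ) * I)).re := by
  have h1 : conj (((x.1 : ℕ) : ℂ) ^ ((τ : ℂ) * I)) = ((x.1 : ℕ) : ℂ) ^ (-((τ : ℂ) * I)) :=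
    (sysH K).conj_cpow_I x τ
  unfold cz zz
  rw [nm_vx, ← h1, Complex.conj_re]

/-- sums over the homomorphisms -/
noncomputable def EH (ε : ℝ) (φ : HX K → ℝ) : ℝ := (sysH K).E ε φ

theorem EH_add {ε : ℝ} (hε : 0 < ε) {φ ψ : HX K → ℝ} {B B' : ℝ} (hφ : ∀ x, |φ x| ≤ B)
    (hψ : ∀ x, |ψ x| ≤ B') : EH ε (fun x => φ x + ψ x) = EH ε φ + EH ε ψ :=
  (sysH K).E_add hε hφ hψ

theorem EH_const_mul {ε : ℝ} (c : ℝ) (φ : HX K → ℝ) : EH ε (fun x => c * φ x) = c * EH ε φ :=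
  (sysH K).E_const_mul c φ

/-- **Second moments.** -/
theorem fz_second (σ : HeightOneSpectrum (𝓞 K) → GK K) (hσ : ∀ v, IsFrob v (σ v)) (τ τ' : ℝ)
    [Decidable (τ = τ')] [Decidable (τ = -τ')] :
    Tendsto (fun ε : ℝ => (EP (nm K) ε fun v => fz K F σ τ v * fz K F' σ τ' v) / lam ε) (𝓝[>] 0)
      (𝓝 (((if τ = τ' then 1 else 0) + (if τ = -τ' then 1 else 0)) / 2 * nfac K F F')) := by
  classical
  have g1 := gram (K := K) (F := F) (F' := F') (D := 1) (D' := 1) one_ne_zero one_ne_zero τ τ'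
  have g2 := gram (K := K) (F := F) (F' := F') (D := 1) (D' := 1) one_ne_zero one_ne_zero τ (-τ')
  rw [inum_one] at g1 g2
  change (fun ε => EH ε (fun x : HX K => (vq K (1 : 𝓞 F) τ x * conj (vq K (1 : 𝓞 F') τ' x)).re) -
      (if τ = τ' then (nfac K F F' : ℝ) else 0) * LL ε) =o[𝓝[>] 0] LL at g1
  change (fun ε => EH ε (fun x : HX K =>
      (vq K (1 : 𝓞 F) τ x * conj (vq K (1 : 𝓞 F') (-τ') x)).re) -
      (if τ = -τ' then (nfac K F F' : ℝ) else 0) * LL ε) =o[𝓝[>] 0] LL at g2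
  set N : ℝ := (nfac K F F' : ℝ) with hN
  set c : ℝ := ((if τ = τ' then 1 else 0) + (if τ = -τ' then 1 else 0)) / 2 * N with hc
  have hb : ∀ (s : ℝ) (x : HX K), |(vq K (1 : 𝓞 F) τ x * conj (vq K (1 : 𝓞 F') s x)).re| ≤
      (Module.finrank ℚ F : ℝ) * Module.finrank ℚ F' := by
    intro s x
    refine (Complex.abs_re_le_norm _).trans ?_
    rw [norm_mul, Complex.norm_conj]
    exact mul_le_mul (norm_vq _ τ x) (norm_vq _ s x) (norm_nonneg _) (by positivity)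
  obtain ⟨S, hS⟩ := push_fix K F
  obtain ⟨S', hS'⟩ := push_fix K F'
  have hpush : ∀ x : HX K, |push K (qh (1 : 𝓞 F)) x * push K (qh (1 : 𝓞 F')) x| ≤
      (Module.finrank ℚ F : ℝ) * Module.finrank ℚ F' := by
    intro x
    rw [abs_mul]
    have h1 := push_abs_le (K := K) (qh_abs (1 : 𝓞 F)) x
    have h2 := push_abs_le (K := K) (qh_abs (1 : 𝓞 F')) x
    rw [mul_one] at h1 h2
    exact mul_le_mul h1 h2 (abs_nonneg _) (Nat.cast_nonneg _)
  obtain ⟨C, hC⟩ := EH_to_EP (K := K)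
    (T := fun x => push K (qh (1 : 𝓞 F)) x * push K (qh (1 : 𝓞 F')) x)
    (r := fun v => (fixn K F (σ v) : ℝ) * fixn K F' (σ v))
    (Ψ := fun v => cz τ v * cz τ' v) (B := 1) hpush (fun v => by
      rw [abs_mul, abs_of_nonneg (Nat.cast_nonneg _), abs_of_nonneg (Nat.cast_nonneg _)]
      exact mul_le_mul (fixn_le _) (fixn_le _) (Nat.cast_nonneg _) (Nat.cast_nonneg _))
    (fun v => by
      rw [abs_mul]
      exact mul_le_one₀ (abs_cz _ _) (abs_nonneg _) (abs_cz _ _)) (S ∪ S') (fun x hx => by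
      rw [Finset.mem_union, not_or] at hx
      rw [hS x hx.1 _ (hσ _), hS' x hx.2 _ (hσ _)])
  -- the main identity
  have hid : ∀ ε : ℝ, 0 < ε → (EH ε fun x : HX K =>
      (push K (qh (1 : 𝓞 F)) x * push K (qh (1 : 𝓞 F')) x) * (cz τ (vx x) * cz τ' (vx x))) =
      (1 / 2 : ℝ) * ((EH ε fun x : HX K =>
        (vq K (1 : 𝓞 F) τ x * conj (vq K (1 : 𝓞 F') τ' x)).re) +
      (EH ε fun x : HX K =>
        (vq K (1 : 𝓞 F) τ x * conj (vq K (1 : 𝓞 F') (-τ') x)).re)) := by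
    intro ε hε
    have h1 := EH_add hε (hb τ') (hb (-τ'))
    rw [← h1, ← EH_const_mul]
    congr 1
    funext x
    rw [cz_eq, cz_eq]
    have h0 : conj (((x.1 : ℕ) : ℂ) ^ (((-τ' : ℝ) : ℂ) * I)) = ((x.1 : ℕ) : ℂ) ^ ((τ' : ℂ) * I) := by
      have h2 : conj (((x.1 : ℕ) : ℂ) ^ (((-τ' : ℝ) : ℂ) * I)) =
        ((x.1 : ℕ) : ℂ) ^ (-((((-τ' : ℝ)) : ℂ) * I)) := (sysH K).conj_cpow_I x (-τ')
      rw [h2]
      congr 1
      push_cast
      ring
    unfold vq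
    rw [map_mul, map_mul, Complex.conj_ofReal, h0]
    have e := Pool.Agent.R433.AT.re_mul_re (((x.1 : ℕ) : ℂ) ^ ((τ : ℂ) * I))
      (((x.1 : ℕ) : ℂ) ^ ((τ' : ℂ) * I))
    have e1 : ((push K (qh (1 : 𝓞 F)) x : ℝ) : ℂ) * ((x.1 : ℕ) : ℂ) ^ ((τ : ℂ) * I) *
        (((push K (qh (1 : 𝓞 F')) x : ℝ) : ℂ) * conj (((x.1 : ℕ) : ℂ) ^ ((τ' : ℂ) * I))) =
        ((push K (qh (1 : 𝓞 F)) x * push K (qh (1 : 𝓞 F')) x : ℝ) : ℂ) *
        (((x.1 : ℕ) : ℂ) ^ ((τ : ℂ) * I) * conj (((x.1 : ℕ) : ℂ) ^ ((τ' : ℂ) * I))) := by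
      push_cast
      ring
    have e2 : ((push K (qh (1 : 𝓞 F)) x : ℝ) : ℂ) * ((x.1 : ℕ) : ℂ) ^ ((τ : ℂ) * I) *
        (((push K (qh (1 : 𝓞 F')) x : ℝ) : ℂ) * ((x.1 : ℕ) : ℂ) ^ ((τ' : ℂ) * I)) =
        ((push K (qh (1 : 𝓞 F)) x * push K (qh (1 : 𝓞 F')) x : ℝ) : ℂ) *
        (((x.1 : ℕ) : ℂ) ^ ((τ : ℂ) * I) * ((x.1 : ℕ) : ℂ) ^ ((τ' : ℂ) * I)) := by
      push_cast
      ring
    rw [e1, e2, Complex.re_ofReal_mul, Complex.re_ofReal_mul, e]
    ring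
  apply lim_of_littleO
  have o1 := (g1.add g2).const_mul_left (1 / 2 : ℝ)
  have o2 : (fun ε => EH ε (fun x : HX K => (push K (qh (1 : 𝓞 F)) x *
      push K (qh (1 : 𝓞 F')) x) * (cz τ (vx x) * cz τ' (vx x))) -
      EP (nm K) ε (fun v => ((fixn K F (σ v) : ℝ) * fixn K F' (σ v)) * (cz τ v * cz τ' v)))
      =o[𝓝[>] 0] LL := bdd_isLittleO ⟨C, by
      filter_upwards [self_mem_nhdsWithin] with ε hε
      exact hC ε hε⟩
  refine (o1.sub o2).congr' ?_ (EventuallyEq.refl _ _)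
  filter_upwards [self_mem_nhdsWithin] with ε hε
  rw [hid ε hε]
  have e3 : EP (nm K) ε (fun v => fz K F σ τ v * fz K F' σ τ' v) =
      EP (nm K) ε (fun v => ((fixn K F (σ v) : ℝ) * fixn K F' (σ v)) * (cz τ v * cz τ' v)) := by
    congr 1
    funext v
    unfold fz
    ring
  rw [e3, hc]
  split_ifs <;> ring

end

end Pool.Agent.R433.NF
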